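import Mathlib

set_option autoImplicit false

/-!
# N forms of degrees `e i` in N variables never contain all forms of degree `∑ (e i - 1)`

Deformation to the pure powers `X i ^ e i`, whose syzygies are trivial, and Nakayama over `ℂ[t]`.
-/

open MvPolynomial

namespace Pool.Agent.Helper74.Apol

variable {N : ℕ}

lemma mem_pow_ideal (A : Finset (Fin N)) (e : Fin N → ℕ) (p : MvPolynomial (Fin N) ℂ) :
    p ∈ Ideal.span ((fun i => (X i : MvPolynomial (Fin N) ℂ) ^ e i) '' (A : Set (Fin N))) ↔
      ∀ m ∈ p.support, ∃ i ∈ A, e i ≤ m i := by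
  have h : (fun i => (X i : MvPolynomial (Fin N) ℂ) ^ e i) '' (A : Set (Fin N)) =
      (fun s => monomial s (1:ℂ)) '' ((fun i => Finsupp.single i (e i)) '' (A : Set (Fin N))) := by
    rw [Set.image_image]
    congr 1
    ext i
    rw [X_pow_eq_monomial]
  rw [h, mem_ideal_span_monomial_image]
  constructor
  · intro H m hm
    obtain ⟨s, ⟨i, hi, rfl⟩, hs⟩ := H m hm
    exact ⟨i, by simpa using hi, by simpa using hs i⟩
  · intro H m hm
    obtain ⟨i, hi, hs⟩ := H m hm
    refine ⟨Finsupp.single i (e i), ⟨i, by simpa using hi, rfl⟩, ?_⟩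
    simpa using hs

lemma mul_pow_mem (A : Finset (Fin N)) (e : Fin N → ℕ) (n : Fin N) (hn : n ∉ A)
    (p : MvPolynomial (Fin N) ℂ)
    (h : p * X n ^ e n ∈
      Ideal.span ((fun i => (X i : MvPolynomial (Fin N) ℂ) ^ e i) '' (A : Set (Fin N)))) :
    p ∈ Ideal.span ((fun i => (X i : MvPolynomial (Fin N) ℂ) ^ e i) '' (A : Set (Fin N))) := by
  rw [mem_pow_ideal] at h ⊢
  intro m hm
  have hm' : m + Finsupp.single n (e n) ∈ (p * X n ^ e n).support := by
    rw [mem_support_iff, X_pow_eq_monomial, coeff_mul_monomial, mul_one]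
    exact mem_support_iff.mp hm
  obtain ⟨i, hi, hs⟩ := h _ hm'
  refine ⟨i, hi, ?_⟩
  have hne : n ≠ i := fun h => hn (h ▸ hi)
  simpa [Finsupp.single_apply, hne] using hs

/-- polynomials with a parameter -/
abbrev PS (N : ℕ) := MvPolynomial (Fin N) (Polynomial ℂ)

/-- specialisation of the parameter -/
noncomputable abbrev ev (a : ℂ) : PS N →+* MvPolynomial (Fin N) ℂ :=
  MvPolynomial.map (Polynomial.evalRingHom a)

/-- constants -/
noncomputable abbrev lift : MvPolynomial (Fin N) ℂ →+* PS N := MvPolynomial.map Polynomial.C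

lemma ev_lift (a : ℂ) (p : MvPolynomial (Fin N) ℂ) : ev a (lift p) = p := by
  rw [MvPolynomial.map_map]
  have : (Polynomial.evalRingHom a).comp Polynomial.C = RingHom.id ℂ := by
    ext x; simp
  rw [this, MvPolynomial.map_id]

lemma ker_ev (a : ℂ) (p : PS N) (h : ev a p = 0) :
    ∃ q : PS N, p = C (Polynomial.X - Polynomial.C a) * q := by
  have : C (Polynomial.X - Polynomial.C a) ∣ p := by
    rw [C_dvd_iff_dvd_coeff]
    intro i
    rw [Polynomial.dvd_iff_isRoot]
    have h1 := congrArg (coeff i) h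
    rw [coeff_map] at h1
    simpa using h1
  obtain ⟨q, hq⟩ := this
  exact ⟨q, hq⟩

lemma key (e : Fin N → ℕ) (H : Fin N → PS N) (hH : ∀ i, ev 0 (H i) = X i ^ e i)
    (A : Finset (Fin N)) : ∀ h : Fin N → PS N, ev 0 (∑ i ∈ A, h i * H i) = 0 →
      ∃ h' : Fin N → PS N, ∑ i ∈ A, h i * H i = C Polynomial.X * ∑ i ∈ A, h' i * H i := by
  classical
  induction A using Finset.induction_on with
  | empty => intro h _; exact ⟨fun _ => 0, by simp⟩
  | insert n A hn ih =>
    intro h h0
    rw [Finset.sum_insert hn, map_add, map_mul, hH, map_sum] at h0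
    have hmem : ev 0 (h n) * X n ^ e n ∈
        Ideal.span ((fun i => (X i : MvPolynomial (Fin N) ℂ) ^ e i) '' (A : Set (Fin N))) := by
      have h1 : ev 0 (h n) * X n ^ e n = - ∑ i ∈ A, ev 0 (h i) * X i ^ e i := by
        rw [eq_neg_iff_add_eq_zero]
        rw [← h0]
        congr 1
        refine Finset.sum_congr rfl fun i _ => ?_
        rw [map_mul, hH]
      rw [h1]
      refine neg_mem (Ideal.sum_mem _ fun i hi => Ideal.mul_mem_left _ _ (Ideal.subset_span ?_))
      exact ⟨i, by simpa using hi, rfl⟩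
    have hm2 := mul_pow_mem A e n hn _ hmem
    rw [Ideal.span, Submodule.mem_span_image_finset_iff_exists_fun'] at hm2
    obtain ⟨a, ha⟩ := hm2
    have hu : ev 0 (h n - ∑ i ∈ A, lift (a i) * H i) = 0 := by
      rw [map_sub, map_sum, sub_eq_zero, ← ha]
      refine Finset.sum_congr rfl fun i _ => ?_
      rw [map_mul, ev_lift, hH, smul_eq_mul]
    obtain ⟨u, hu⟩ := ker_ev 0 _ hu
    rw [Polynomial.C_0, sub_zero, sub_eq_iff_eq_add] at hu
    have hrew : ∑ i ∈ insert n A, h i * H i =
        (∑ i ∈ A, (h i + lift (a i) * H n) * H i) + C Polynomial.X * (u * H n) := by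
      rw [Finset.sum_insert hn, hu]
      have : ∑ i ∈ A, (h i + lift (a i) * H n) * H i =
          ∑ i ∈ A, h i * H i + (∑ i ∈ A, lift (a i) * H i) * H n := by
        rw [Finset.sum_mul, ← Finset.sum_add_distrib]
        refine Finset.sum_congr rfl fun i _ => by ring
      rw [this]; ring
    have h00 : ev 0 (∑ i ∈ A, (h i + lift (a i) * H n) * H i) = 0 := by
      have h2 : ev 0 (∑ i ∈ insert n A, h i * H i) = 0 := by
        rw [Finset.sum_insert hn, map_add, map_mul, hH, map_sum]; exact h0
      rw [hrew, map_add, map_mul (ev 0) (C Polynomial.X)] at h2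
      simpa using h2
    obtain ⟨h', hh'⟩ := ih _ h00
    refine ⟨fun i => if i = n then u else h' i, ?_⟩
    have hsum : ∑ i ∈ A, (if i = n then u else h' i) * H i = ∑ i ∈ A, h' i * H i := by
      refine Finset.sum_congr rfl fun i hi => ?_
      have : i ≠ n := fun h => hn (h ▸ hi)
      rw [if_neg this]
    rw [hrew, hh', Finset.sum_insert hn, hsum]
    simp only [if_true]
    ring

lemma homog_fg (D : ℕ) : (homogeneousSubmodule (Fin N) (Polynomial ℂ) D).FG := by
  have h : homogeneousSubmodule (Fin N) (Polynomial ℂ) D =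
      Submodule.span (Polynomial ℂ)
        ((fun m : Fin N →₀ ℕ => monomial m (1 : Polynomial ℂ)) '' {m | m.degree = D}) := by
    apply le_antisymm
    · intro p hp
      rw [mem_homogeneousSubmodule] at hp
      rw [p.as_sum]
      refine Submodule.sum_mem _ fun m hm => ?_
      have : monomial m (coeff m p) = coeff m p • (monomial m (1 : Polynomial ℂ)) := by
        rw [smul_monomial, smul_eq_mul, mul_one]
      rw [this]
      refine Submodule.smul_mem _ _ (Submodule.subset_span ⟨m, ?_, rfl⟩)
      by_contra hne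
      exact (mem_support_iff.mp hm) (hp.coeff_eq_zero hne)
    · rw [Submodule.span_le]
      rintro _ ⟨m, hm, rfl⟩
      exact isHomogeneous_monomial _ hm
  rw [h]
  refine Submodule.fg_span (Set.Finite.image _ ?_)
  have : {m : Fin N →₀ ℕ | m.degree = D} ⊆
      ((Finset.univ : Finset (Fin N)).finsuppAntidiag D : Set (Fin N →₀ ℕ)) := by
    intro m hm
    simp only [Finset.mem_coe, Finset.mem_finsuppAntidiag]
    refine ⟨?_, fun _ _ => Finset.mem_univ _⟩
    rw [← hm, Finsupp.degree_eq_sum]
  exact (Finset.finite_toSet _).subset this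

theorem koszul (G : Fin N → MvPolynomial (Fin N) ℂ) (e : Fin N → ℕ) (he : ∀ i, 1 ≤ e i)
    (hG : ∀ i, (G i).IsHomogeneous (e i)) :
    ¬ ∀ p : MvPolynomial (Fin N) ℂ, p.IsHomogeneous (∑ i, (e i - 1)) →
      p ∈ Ideal.span (Set.range G) := by
  classical
  intro hall
  set D := ∑ i, (e i - 1) with hD
  set T : Polynomial ℂ := Polynomial.X with hT
  set H : Fin N → PS N := fun i => C (1 - T) * X i ^ e i + C T * lift (G i) with hHdef
  have hHhom : ∀ i, (H i).IsHomogeneous (e i) := by
    intro i
    refine IsHomogeneous.add ?_ ?_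
    · have := (isHomogeneous_C (Fin N) (1 - T)).mul (isHomogeneous_X_pow (R := Polynomial ℂ) i (e i))
      simpa using this
    · have := (isHomogeneous_C (Fin N) T).mul ((hG i).map Polynomial.C)
      simpa using this
  have hH0 : ∀ i, ev 0 (H i) = X i ^ e i := by
    intro i
    simp only [hHdef, map_add, map_mul, ev_lift, map_pow, map_C, map_X]
    simp [hT]
  have hH1 : ∀ i, ev 1 (H i) = G i := by
    intro i
    simp only [hHdef, map_add, map_mul, ev_lift, map_pow, map_C, map_X]
    simp [hT]
  set J : Ideal (PS N) := Ideal.span (Set.range H) with hJ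
  -- torsion-freeness
  have tf : ∀ x : PS N, C T * x ∈ J → x ∈ J := by
    intro x hx
    rw [hJ, Ideal.mem_span_range_iff_exists_fun] at hx
    obtain ⟨h, hh⟩ := hx
    have h0 : ev 0 (∑ i ∈ Finset.univ, h i * H i) = 0 := by
      rw [hh, map_mul]; simp [hT]
    obtain ⟨h', hh'⟩ := key e H hH0 Finset.univ h h0
    rw [hh] at hh'
    have hne : (C T : PS N) ≠ 0 := by
      rw [Ne, C_eq_zero]; exact Polynomial.X_ne_zero
    have := mul_left_cancel₀ hne hh'
    rw [this, hJ, Ideal.mem_span_range_iff_exists_fun]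
    exact ⟨h', rfl⟩
  have tfn : ∀ (n : ℕ) (x : PS N), C (T ^ n) * x ∈ J → x ∈ J := by
    intro n
    induction n with
    | zero => intro x hx; simpa using hx
    | succ n ih =>
      intro x hx
      rw [pow_succ, map_mul, mul_assoc] at hx
      exact tf _ (ih _ hx)
  -- homogeneous components of elements of J
  have hJcomp : ∀ (a : Fin N → PS N), homogeneousComponent D (∑ i, a i * H i) ∈ J := by
    intro a
    rw [map_sum]
    refine Ideal.sum_mem _ fun i _ => ?_
    have hdec : a i * H i = ∑ j ∈ Finset.range ((a i).totalDegree + 1),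
        homogeneousComponent j (a i) * H i := by
      rw [← Finset.sum_mul, sum_homogeneousComponent]
    rw [hdec, map_sum]
    refine Ideal.sum_mem _ fun j _ => ?_
    have hhom : (homogeneousComponent j (a i) * H i).IsHomogeneous (j + e i) :=
      (homogeneousComponent_isHomogeneous j (a i)).mul (hHhom i)
    by_cases hj : D = j + e i
    · rw [hj, homogeneousComponent_of_mem hhom, if_pos rfl]
      exact Ideal.mul_mem_left _ _ (Ideal.subset_span ⟨i, rfl⟩)
    · rw [homogeneousComponent_of_mem hhom, if_neg hj]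
      exact J.zero_mem
  -- Nakayama
  set q := (Ideal.Quotient.mkₐ (Polynomial ℂ) J).toLinearMap with hq
  set M : Submodule (Polynomial ℂ) (PS N ⧸ J) :=
    Submodule.map q (homogeneousSubmodule (Fin N) (Polynomial ℂ) D) with hM
  have hMfg : M.FG := (homog_fg D).map _
  have hle : M ≤ (Ideal.span {T - 1} : Ideal (Polynomial ℂ)) • M := by
    rintro _ ⟨p, hp, rfl⟩
    have hp' : p.IsHomogeneous D := hp
    have h1 : (ev 1 p).IsHomogeneous D := hp'.map _
    have h2 := hall _ h1
    rw [Ideal.mem_span_range_iff_exists_fun] at h2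
    obtain ⟨a, ha⟩ := h2
    have h3 : ev 1 (p - ∑ i, lift (a i) * H i) = 0 := by
      rw [map_sub, map_sum, sub_eq_zero, ← ha]
      refine Finset.sum_congr rfl fun i _ => ?_
      rw [map_mul, ev_lift, hH1]
    obtain ⟨u, hu⟩ := ker_ev 1 _ h3
    have h4 : p = homogeneousComponent D (∑ i, lift (a i) * H i) +
        C (T - 1) * homogeneousComponent D u := by
      have h5 := congrArg (homogeneousComponent D) hu
      rw [map_sub, homogeneousComponent_of_mem hp', if_pos rfl, homogeneousComponent_C_mul] at h5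
      rw [Polynomial.C_1] at h5
      rw [sub_eq_iff_eq_add] at h5
      rw [add_comm]; exact h5
    have h6 : q p = (T - 1) • q (homogeneousComponent D u) := by
      conv_lhs => rw [h4]
      rw [map_add]
      have h7 : q (homogeneousComponent D (∑ i, lift (a i) * H i)) = 0 := by
        change Ideal.Quotient.mk J _ = 0
        exact Ideal.Quotient.eq_zero_iff_mem.mpr (hJcomp _)
      rw [h7, zero_add, ← map_smul, smul_eq_C_mul]
    rw [h6]
    refine Submodule.smul_mem_smul (Ideal.subset_span rfl) ?_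
    exact ⟨_, homogeneousComponent_isHomogeneous _ _, rfl⟩
  obtain ⟨r, hr1, hr⟩ :=
    Submodule.exists_sub_one_mem_and_smul_eq_zero_of_fg_of_le_smul _ M hMfg hle
  have hr1' : r.eval 1 = 1 := by
    rw [Ideal.mem_span_singleton] at hr1
    obtain ⟨s, hs⟩ := hr1
    have := congrArg (Polynomial.eval 1) hs
    simp [hT] at this
    linear_combination this
  have hr0 : r ≠ 0 := by
    rintro rfl; simp at hr1'
  obtain ⟨r', hr', hnd⟩ := Polynomial.exists_eq_pow_rootMultiplicity_mul_and_not_dvd r hr0 0
  rw [Polynomial.C_0, sub_zero] at hr' hnd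
  set p0 : PS N := ∏ i, X i ^ (e i - 1) with hp0
  have hp0hom : p0.IsHomogeneous D := by
    have := IsHomogeneous.prod Finset.univ (fun i : Fin N => (X i : PS N) ^ (e i - 1))
      (fun i => e i - 1) (fun i _ => isHomogeneous_X_pow i _)
    exact this
  have hmem : C r * p0 ∈ J := by
    have := hr (q p0) ⟨p0, hp0hom, rfl⟩
    rw [← map_smul, smul_eq_C_mul] at this
    exact Ideal.Quotient.eq_zero_iff_mem.mp this
  have hmem' : C r' * p0 ∈ J := by
    rw [hr', map_mul, mul_assoc] at hmem
    exact tfn _ _ hmem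
  rw [hJ, Ideal.mem_span_range_iff_exists_fun] at hmem'
  obtain ⟨h, hh⟩ := hmem'
  have h8 := congrArg (ev 0) hh
  have h9 : ev 0 (C r' * p0) = monomial (Finsupp.equivFunOnFinite.symm fun i => e i - 1)
      (r'.eval 0) := by
    rw [map_mul, hp0, map_prod, monomial_eq]
    simp only [map_pow, map_X, map_C]
    congr 1
    rw [Finsupp.prod_fintype _ _ (fun i => by simp)]
    simp
  have h10 : monomial (Finsupp.equivFunOnFinite.symm fun i => e i - 1) (r'.eval 0) ∈
      Ideal.span ((fun i => (X i : MvPolynomial (Fin N) ℂ) ^ e i) ''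
        ((Finset.univ : Finset (Fin N)) : Set (Fin N))) := by
    rw [← h9, ← h8, map_sum]
    refine Ideal.sum_mem _ fun i _ => ?_
    rw [map_mul, hH0]
    exact Ideal.mul_mem_left _ _ (Ideal.subset_span ⟨i, by simp, rfl⟩)
  rw [mem_pow_ideal] at h10
  have hne : r'.eval 0 ≠ 0 := by
    intro h0
    exact hnd (by
      have := Polynomial.dvd_iff_isRoot.mpr (show Polynomial.IsRoot r' 0 from h0)
      simpa using this)
  obtain ⟨i, _, hi⟩ := h10 (Finsupp.equivFunOnFinite.symm fun i => e i - 1) (by
    rw [mem_support_iff, coeff_monomial, if_pos rfl]; exact hne)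
  have := he i
  simp at hi
  omega

end Pool.Agent.Helper74.Apol
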