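import Pool.Agent.Helper74.Apol.Block2
import Pool.Agent.Helper74.Apol.Koszul

set_option autoImplicit false

/-!
# The apolar ideal
-/

open MvPolynomial

namespace Pool.Agent.Helper74.Apol

section
variable {N : ℕ}

/-- The functional `X^a ↦ a! F_a`. -/
noncomputable def Lam (F : MvPolynomial (Fin N) ℂ) : MvPolynomial (Fin N) ℂ →ₗ[ℂ] ℂ :=
  (MvPolynomial.basisMonomials (Fin N) ℂ).constr ℂ (fun a => hh F a)

lemma Lam_monomial (F : MvPolynomial (Fin N) ℂ) (a : Fin N →₀ ℕ) (c : ℂ) :
    Lam F (monomial a c) = c * hh F a := by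
  have h1 : (monomial a c : MvPolynomial (Fin N) ℂ) = c • (MvPolynomial.basisMonomials (Fin N) ℂ) a := by
    rw [MvPolynomial.coe_basisMonomials, smul_monomial, smul_eq_mul, mul_one]
  rw [h1, map_smul, Lam, Module.Basis.constr_basis, smul_eq_mul]

lemma Lam_mul_monomial (F p : MvPolynomial (Fin N) ℂ) (c : Fin N →₀ ℕ)
    (S : Finset (Fin N →₀ ℕ)) (hS : p.support ⊆ S) :
    Lam F (p * monomial c 1) = ∑ a ∈ S, coeff a p * hh F (a + c) := by
  have h1 : Lam F (p * monomial c 1) = ∑ a ∈ p.support, coeff a p * hh F (a + c) := by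
    conv_lhs => rw [p.as_sum, Finset.sum_mul, map_sum]
    refine Finset.sum_congr rfl fun a _ => ?_
    rw [monomial_mul, mul_one, Lam_monomial]
  rw [h1]
  refine Finset.sum_subset hS fun a _ ha => ?_
  rw [notMem_support_iff.mp ha, zero_mul]

/-- The apolar ideal. -/
noncomputable def annI (F : MvPolynomial (Fin N) ℂ) : Ideal (MvPolynomial (Fin N) ℂ) where
  carrier := {p | ∀ q, Lam F (p * q) = 0}
  add_mem' := by
    intro a b ha hb q
    rw [add_mul, map_add, ha q, hb q, add_zero]
  zero_mem' := by intro q; rw [zero_mul, map_zero]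
  smul_mem' := by
    intro c x hx q
    rw [smul_eq_mul, mul_comm c x, mul_assoc]
    exact hx _

lemma mem_annI (F p : MvPolynomial (Fin N) ℂ) : p ∈ annI F ↔ ∀ q, Lam F (p * q) = 0 := Iff.rfl

lemma mem_annI_iff (F p : MvPolynomial (Fin N) ℂ) : p ∈ annI F ↔
    ∀ c, ∑ a ∈ p.support, coeff a p * hh F (a + c) = 0 := by
  rw [mem_annI]
  constructor
  · intro h c
    rw [← Lam_mul_monomial F p c p.support (Finset.Subset.refl _)]
    exact h _
  · intro h q
    rw [q.as_sum, Finset.mul_sum, map_sum]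
    refine Finset.sum_eq_zero fun c _ => ?_
    have h1 : p * monomial c (coeff c q) = (coeff c q) • (p * monomial c 1) := by
      rw [← mul_smul_comm, smul_monomial, smul_eq_mul, mul_one]
    rw [h1, map_smul, Lam_mul_monomial F p c p.support (Finset.Subset.refl _), h c, smul_zero]

/-- The condition in the frozen statement. -/
lemma mem_annI_iff' (F p : MvPolynomial (Fin N) ℂ) : p ∈ annI F ↔
    ∀ c : Fin N →₀ ℕ, ∑ a ∈ p.support, p.coeff a * F.coeff (a + c) *
      ∏ i : Fin N, (((a + c) i).descFactorial (a i) : ℂ) = 0 := by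
  rw [mem_annI_iff]
  refine forall_congr' fun c => ?_
  have hfc : fc c ≠ 0 := by
    unfold fc
    rw [Finset.prod_ne_zero_iff]
    intro i _
    exact_mod_cast Nat.factorial_ne_zero _
  have h1 : ∑ a ∈ p.support, coeff a p * hh F (a + c) =
      (∑ a ∈ p.support, p.coeff a * F.coeff (a + c) *
        ∏ i : Fin N, (((a + c) i).descFactorial (a i) : ℂ)) * fc c := by
    rw [Finset.sum_mul]
    refine Finset.sum_congr rfl fun a _ => ?_
    have h2 : fc (a + c) = (∏ i : Fin N, (((a + c) i).descFactorial (a i) : ℂ)) * fc c := by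
      unfold fc
      rw [← Finset.prod_mul_distrib]
      refine Finset.prod_congr rfl fun i _ => ?_
      have h3 := Nat.factorial_mul_descFactorial (n := (a + c) i) (k := a i) (by simp)
      have h4 : (a + c) i - a i = c i := by simp
      rw [h4] at h3
      rw [← h3]
      push_cast
      ring
    rw [hh, h2]
    ring
  rw [h1]
  constructor
  · intro h
    rcases mul_eq_zero.mp h with h2 | h2
    · exact h2
    · exact absurd h2 hfc
  · intro h
    rw [h, zero_mul]

lemma hh_zero {F : MvPolynomial (Fin N) ℂ} {d : ℕ} (hF : F.IsHomogeneous d) {a : Fin N →₀ ℕ}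
    (ha : a.degree ≠ d) : hh F a = 0 := by
  unfold hh
  by_cases h : coeff a F = 0
  · rw [h, zero_mul]
  · exact absurd (hF.coeff_eq_zero ha) h

lemma annI_component {F : MvPolynomial (Fin N) ℂ} {d : ℕ} (hF : F.IsHomogeneous d)
    {p : MvPolynomial (Fin N) ℂ} (hp : p ∈ annI F) (j : ℕ) :
    homogeneousComponent j p ∈ annI F := by
  rw [mem_annI_iff]
  intro c
  have hsub : (homogeneousComponent j p).support ⊆ p.support := by
    intro a ha
    rw [mem_support_iff, coeff_homogeneousComponent] at ha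
    rw [mem_support_iff]
    intro h0
    apply ha
    rw [h0, ite_self]
  rw [← Lam_mul_monomial F _ c _ (Finset.Subset.refl _), Lam_mul_monomial F _ c _ hsub]
  by_cases hj : j + c.degree = d
  · rw [← ((mem_annI_iff F p).mp hp) c]
    refine Finset.sum_congr rfl fun a _ => ?_
    rw [coeff_homogeneousComponent]
    split_ifs with h1
    · rfl
    · rw [hh_zero hF, mul_zero, mul_zero]
      rw [map_add]
      omega
  · refine Finset.sum_eq_zero fun a _ => ?_
    rw [coeff_homogeneousComponent]
    split_ifs with h1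
    · rw [hh_zero hF, mul_zero]
      rw [map_add]
      omega
    · rw [zero_mul]

lemma annI_large {F : MvPolynomial (Fin N) ℂ} {d : ℕ} (hF : F.IsHomogeneous d)
    {p : MvPolynomial (Fin N) ℂ} {j : ℕ} (hp : p.IsHomogeneous j) (hj : d < j) : p ∈ annI F := by
  rw [mem_annI_iff]
  intro c
  refine Finset.sum_eq_zero fun a ha => ?_
  have h1 : a.degree = j := by
    have := hp (mem_support_iff.mp ha)
    rw [Finsupp.degree_eq_weight_one]
    exact this
  rw [hh_zero hF, mul_zero]
  rw [map_add]
  omega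

/-- No forms of small degree, if none of degree `k`. -/
lemma annI_small {F : MvPolynomial (Fin N) ℂ} (hN : 0 < N) {k : ℕ}
    (h : ∀ p ∈ annI F, p.IsHomogeneous k → p = 0) {p : MvPolynomial (Fin N) ℂ} {j : ℕ}
    (hp : p ∈ annI F) (hpj : p.IsHomogeneous j) (hj : j ≤ k) : p = 0 := by
  have h1 : X (⟨0, hN⟩ : Fin N) ^ (k - j) * p ∈ annI F := Ideal.mul_mem_left _ _ hp
  have h2 : (X (⟨0, hN⟩ : Fin N) ^ (k - j) * p : MvPolynomial (Fin N) ℂ).IsHomogeneous k := by
    have := (isHomogeneous_X_pow (R := ℂ) (⟨0, hN⟩ : Fin N) (k - j)).mul hpj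
    have h3 : k - j + j = k := by omega
    rwa [h3] at this
  have h3 := h _ h1 h2
  rcases mul_eq_zero.mp h3 with h4 | h4
  · exact absurd h4 (pow_ne_zero _ (X_ne_zero _))
  · exact h4

end

end Pool.Agent.Helper74.Apol
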