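import Mathlib

set_option autoImplicit false

/-!
# Hankel matrices of the numbers `i! (n - i)!` are nonsingular
-/

open Polynomial Finset

namespace Pool.Agent.Helper74.Apol

lemma fact_asc (a r : ℕ) : ((a + r).factorial : ℂ) =
    (a.factorial : ℂ) * (ascPochhammer ℂ r).eval ((a : ℂ) + 1) := by
  have h := factorial_mul_ascPochhammer ℂ a r
  rw [h]

lemma beta_inj (w R n : ℕ) (h : w + 2 * R ≤ n) (u : ℕ → ℂ)
    (hu : ∀ j ≤ R, ∑ r ∈ range (R + 1),
      u r * (((w + r + j).factorial : ℂ) * ((n - (w + r + j)).factorial : ℂ)) = 0) :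
    ∀ r ≤ R, u r = 0 := by
  set P : ℕ → ℂ[X] := fun r => (ascPochhammer ℂ r).comp (X + C ((w : ℂ) + 1)) *
    (ascPochhammer ℂ (R - r)).comp (C (((n - w - R : ℕ) : ℂ) + 1) - X) with hP
  have hval : ∀ j ≤ R, ∀ r ≤ R, (((w + r + j).factorial : ℂ) *
      ((n - (w + r + j)).factorial : ℂ)) =
      (((w + j).factorial : ℂ) * ((n - w - R - j).factorial : ℂ)) * (P r).eval (j : ℂ) := by
    intro j hj r hr
    have e1 : w + r + j = (w + j) + r := by ring
    have e2 : n - (w + r + j) = (n - w - R - j) + (R - r) := by omega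
    rw [e2, fact_asc (n - w - R - j) (R - r), e1, fact_asc (w + j) r]
    simp only [hP, eval_mul, eval_comp, eval_add, eval_sub, eval_X, eval_C]
    have e3 : ((w + j : ℕ) : ℂ) + 1 = (j : ℂ) + ((w : ℂ) + 1) := by push_cast; ring
    have e4 : ((n - w - R - j : ℕ) : ℂ) + 1 = ((n - w - R : ℕ) : ℂ) + 1 - (j : ℂ) := by
      rw [Nat.cast_sub (by omega : j ≤ n - w - R)]; ring
    rw [e3, e4]; ring
  set Q : ℂ[X] := ∑ r ∈ range (R + 1), C (u r) * P r with hQ
  have hQroot : ∀ j ≤ R, Q.eval (j : ℂ) = 0 := by
    intro j hj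
    have h1 := hu j hj
    have h2 : ∑ r ∈ range (R + 1),
        u r * (((w + r + j).factorial : ℂ) * ((n - (w + r + j)).factorial : ℂ)) =
        (((w + j).factorial : ℂ) * ((n - w - R - j).factorial : ℂ)) * Q.eval (j : ℂ) := by
      rw [hQ, eval_finsetSum, mul_sum]
      refine sum_congr rfl fun r hr => ?_
      have hev : (C (u r) * P r).eval (j : ℂ) = u r * (P r).eval (j : ℂ) := by
        rw [eval_mul, eval_C]
      rw [hval j hj r (by simpa [Nat.lt_succ_iff] using hr), hev]; ring
    rw [h2] at h1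
    rcases mul_eq_zero.mp h1 with h3 | h3
    · exfalso
      rcases mul_eq_zero.mp h3 with h4 | h4
      · exact (Nat.factorial_ne_zero _) (by exact_mod_cast h4)
      · exact (Nat.factorial_ne_zero _) (by exact_mod_cast h4)
    · exact h3
  have hPdeg : ∀ r ≤ R, (P r).natDegree ≤ R := by
    intro r hr
    simp only [hP]
    refine natDegree_mul_le.trans ?_
    have h1 : ((ascPochhammer ℂ r).comp (X + C ((w : ℂ) + 1))).natDegree ≤ r := by
      refine natDegree_comp_le.trans ?_
      rw [ascPochhammer_natDegree, natDegree_X_add_C, mul_one]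
    have h2 : ((ascPochhammer ℂ (R - r)).comp
        (C (((n - w - R : ℕ) : ℂ) + 1) - X)).natDegree ≤ R - r := by
      refine natDegree_comp_le.trans ?_
      rw [ascPochhammer_natDegree]
      have : (C (((n - w - R : ℕ) : ℂ) + 1) - X : ℂ[X]).natDegree ≤ 1 := by
        rw [natDegree_sub]
        exact natDegree_X_sub_C_le _
      calc (R - r) * _ ≤ (R - r) * 1 := Nat.mul_le_mul_left _ this
        _ = R - r := mul_one _
    omega
  have hQ0 : Q = 0 := by
    refine eq_zero_of_natDegree_lt_card_of_eval_eq_zero' Q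
      ((range (R + 1)).map ⟨fun j : ℕ => (j : ℂ), Nat.cast_injective⟩) ?_ ?_
    · intro x hx
      simp only [mem_map, mem_range, Function.Embedding.coeFn_mk] at hx
      obtain ⟨j, hj, rfl⟩ := hx
      exact hQroot j (by omega)
    · rw [card_map, card_range, Nat.lt_succ_iff, hQ]
      refine natDegree_sum_le_of_forall_le _ _ fun r hr => ?_
      refine (natDegree_C_mul_le _ _).trans (hPdeg r (by simpa [Nat.lt_succ_iff] using hr))
  have hneg : ∀ s ≤ R, ∀ r ≤ R, (P r).eval (-((w : ℂ) + 1) - (s : ℂ)) =
      (ascPochhammer ℂ r).eval (-(s : ℂ)) *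
      (ascPochhammer ℂ (R - r)).eval (((n - R + 2 + s : ℕ) : ℂ)) := by
    intro s hs r hr
    simp only [hP, eval_mul, eval_comp, eval_add, eval_sub, eval_X, eval_C]
    congr 2
    · ring
    · rw [show n - R + 2 + s = (n - w - R) + w + 2 + s by omega]
      push_cast; ring
  intro r
  induction r using Nat.strong_induction_on with
  | _ s ih =>
    intro hs
    have h1 : Q.eval (-((w : ℂ) + 1) - (s : ℂ)) = 0 := by rw [hQ0, eval_zero]
    rw [hQ, eval_finsetSum, sum_eq_single s] at h1
    · rw [eval_mul, eval_C, hneg s hs s hs] at h1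
      rcases mul_eq_zero.mp h1 with h2 | h2
      · exact h2
      · exfalso
        rcases mul_eq_zero.mp h2 with h3 | h3
        · rw [ascPochhammer_eval_neg_eq_descPochhammer, descPochhammer_eval_eq_descFactorial,
            Nat.descFactorial_self] at h3
          rcases mul_eq_zero.mp h3 with h4 | h4
          · exact (pow_ne_zero _ (by norm_num)) h4
          · exact (Nat.factorial_ne_zero _) (by exact_mod_cast h4)
        · rw [ascPochhammer_eval_eq_zero_iff] at h3
          obtain ⟨k, _, hk⟩ := h3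
          have : ((n - R + 2 + s + k : ℕ) : ℂ) = 0 := by
            push_cast at hk ⊢
            rw [hk]; ring
          have := Nat.cast_eq_zero.mp this
          omega
    · intro r hr hne
      rw [mem_range, Nat.lt_succ_iff] at hr
      rcases lt_or_gt_of_ne hne with hlt | hgt
      · rw [ih r hlt (by omega)]; simp
      · rw [eval_mul, hneg s hs r hr, ascPochhammer_eval_neg_coe_nat_of_lt hgt]; simp
    · intro hns
      exact absurd (mem_range.mpr (by omega)) hns

end Pool.Agent.Helper74.Apol
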