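import Mathlib

set_option autoImplicit false

/-!
# The product of the forms `ζ^(2j) x₀ - ζ^j x₁ + x₂` over the `m`-th roots of unity
-/

open MvPolynomial

namespace Pool.Agent.Helper74.Apol

/-- coefficients of the Lucas-type polynomials -/
noncomputable def vv (n i : ℕ) : ℂ :=
  if 2 * i ≤ n then (-1) ^ i * (n : ℂ) * ((n - i - 1).factorial : ℂ) /
    ((i.factorial : ℂ) * ((n - 2 * i).factorial : ℂ)) else 0

lemma vv_zero (n : ℕ) (hn : 1 ≤ n) : vv n 0 = 1 := by
  obtain ⟨k, rfl⟩ : ∃ k, n = k + 1 := ⟨n - 1, by omega⟩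
  have h1 : ((k + 1).factorial : ℂ) = ((k : ℂ) + 1) * (k.factorial : ℂ) := by
    rw [Nat.factorial_succ]; push_cast; ring
  have h2 : (k.factorial : ℂ) ≠ 0 := by exact_mod_cast Nat.factorial_ne_zero k
  have h3 : ((k : ℂ) + 1) ≠ 0 := by exact_mod_cast Nat.succ_ne_zero k
  simp only [vv, Nat.mul_zero, Nat.zero_le, if_true, pow_zero, one_mul, Nat.sub_zero,
    Nat.add_sub_cancel, Nat.factorial_zero, Nat.cast_one]
  rw [h1]
  push_cast
  field_simp

lemma vv_rec (n i : ℕ) (hn : 1 ≤ n) : vv (n + 2) (i + 1) = vv (n + 1) (i + 1) - vv n i := by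
  unfold vv
  by_cases h1 : 2 * (i + 1) ≤ n + 2
  · have h2 : 2 * i ≤ n := by omega
    rw [if_pos h1, if_pos h2]
    by_cases h3 : 2 * (i + 1) ≤ n + 1
    · rw [if_pos h3]
      obtain ⟨t, ht⟩ : ∃ t, n = 2 * i + 1 + t := ⟨n - (2 * i + 1), by omega⟩
      subst ht
      have e1 : 2 * i + 1 + t + 2 - (i + 1) - 1 = (i + t) + 1 := by omega
      have e2 : 2 * i + 1 + t + 2 - 2 * (i + 1) = t + 1 := by omega
      have e3 : 2 * i + 1 + t + 1 - (i + 1) - 1 = i + t := by omega
      have e4 : 2 * i + 1 + t + 1 - 2 * (i + 1) = t := by omega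
      have e5 : 2 * i + 1 + t - i - 1 = i + t := by omega
      have e6 : 2 * i + 1 + t - 2 * i = t + 1 := by omega
      rw [e1, e2, e3, e4, e5, e6, Nat.factorial_succ (i + t), Nat.factorial_succ t,
        Nat.factorial_succ i]
      have f1 : (i.factorial : ℂ) ≠ 0 := by exact_mod_cast Nat.factorial_ne_zero i
      have f2 : (t.factorial : ℂ) ≠ 0 := by exact_mod_cast Nat.factorial_ne_zero t
      have f3 : ((i : ℂ) + 1) ≠ 0 := by exact_mod_cast Nat.succ_ne_zero i
      have f4 : ((t : ℂ) + 1) ≠ 0 := by exact_mod_cast Nat.succ_ne_zero t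
      push_cast
      field_simp
      ring
    · rw [if_neg h3]
      have hn2 : n = 2 * i := by omega
      subst hn2
      obtain ⟨t, ht⟩ : ∃ t, i = t + 1 := ⟨i - 1, by omega⟩
      subst ht
      have e1 : 2 * (t + 1) + 2 - (t + 1 + 1) - 1 = t + 1 := by omega
      have e2 : 2 * (t + 1) + 2 - 2 * (t + 1 + 1) = 0 := by omega
      have e5 : 2 * (t + 1) - (t + 1) - 1 = t := by omega
      have e6 : 2 * (t + 1) - 2 * (t + 1) = 0 := by omega
      rw [e1, e2, e5, e6, Nat.factorial_succ (t + 1), Nat.factorial_succ t]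
      have f2 : (t.factorial : ℂ) ≠ 0 := by exact_mod_cast Nat.factorial_ne_zero t
      have f3 : ((t : ℂ) + 1) ≠ 0 := by exact_mod_cast Nat.succ_ne_zero t
      have f4 : ((t : ℂ) + 1 + 1) ≠ 0 := by exact_mod_cast Nat.succ_ne_zero (t + 1)
      push_cast
      field_simp
      ring
  · rw [if_neg h1, if_neg (by omega), if_neg (by omega)]; ring

section
variable {σ : Type*} (i0 i1 i2 : σ)

/-- the Lucas-type polynomial in `b = X i1`, `ρ = X i0 * X i2` -/
noncomputable def WW (m : ℕ) : MvPolynomial σ ℂ :=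
  ∑ i ∈ Finset.range (m + 1), C (vv m i) * (X i0 * X i2) ^ i * X i1 ^ (m - 2 * i)

lemma WW_one : WW i0 i1 i2 1 = X i1 := by
  unfold WW
  rw [Finset.sum_range_succ, Finset.sum_range_one, vv_zero 1 le_rfl]
  have : vv 1 1 = 0 := by simp [vv]
  rw [this]; simp

lemma WW_two : WW i0 i1 i2 2 = X i1 ^ 2 - 2 * (X i0 * X i2) := by
  unfold WW
  rw [Finset.sum_range_succ, Finset.sum_range_succ, Finset.sum_range_one, vv_zero 2 (by norm_num)]
  have h1 : vv 2 1 = -2 := by simp [vv]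
  have h2 : vv 2 2 = 0 := by simp [vv]
  rw [h1, h2]
  have h3 : (C (-2 : ℂ) : MvPolynomial σ ℂ) = -2 := by
    rw [map_neg]; congr 1
  rw [h3]; simp; ring

lemma WW_rec (n : ℕ) (hn : 1 ≤ n) : WW i0 i1 i2 (n + 2) =
    X i1 * WW i0 i1 i2 (n + 1) - X i0 * X i2 * WW i0 i1 i2 n := by
  have hA : X i1 * WW i0 i1 i2 (n + 1) =
      ∑ i ∈ Finset.range (n + 3), C (vv (n + 1) i) * (X i0 * X i2) ^ i *
        X i1 ^ (n + 2 - 2 * i) := by
    rw [Finset.sum_range_succ, show vv (n + 1) (n + 2) = 0 by simp [vv]; intro h; omega]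
    rw [WW, Finset.mul_sum]
    simp only [map_zero, zero_mul, add_zero]
    refine Finset.sum_congr rfl fun i _ => ?_
    by_cases h : 2 * i ≤ n + 1
    · rw [show n + 2 - 2 * i = (n + 1 - 2 * i) + 1 by omega, pow_succ]; ring
    · rw [show vv (n + 1) i = 0 by unfold vv; rw [if_neg h]]; simp
  have hB : X i0 * X i2 * WW i0 i1 i2 n =
      ∑ i ∈ Finset.range (n + 2), C (if i = n + 1 then 0 else vv n i) * (X i0 * X i2) ^ (i + 1) *
        X i1 ^ (n + 2 - 2 * (i + 1)) := by
    rw [Finset.sum_range_succ, if_pos rfl, WW, Finset.mul_sum]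
    simp only [map_zero, zero_mul, add_zero]
    refine Finset.sum_congr rfl fun i hi => ?_
    rw [Finset.mem_range] at hi
    rw [if_neg (by omega), show n + 2 - 2 * (i + 1) = n - 2 * i by omega]; ring
  rw [hA, hB, WW, Finset.sum_range_succ' _ (n + 2), Finset.sum_range_succ' _ (n + 2),
    vv_zero (n + 2) (by omega), vv_zero (n + 1) (by omega)]
  have hC : ∑ i ∈ Finset.range (n + 2), C (vv (n + 2) (i + 1)) * (X i0 * X i2) ^ (i + 1) *
      X i1 ^ (n + 2 - 2 * (i + 1)) =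
      ∑ i ∈ Finset.range (n + 2), C (vv (n + 1) (i + 1)) * (X i0 * X i2) ^ (i + 1) *
      X i1 ^ (n + 2 - 2 * (i + 1)) -
      ∑ i ∈ Finset.range (n + 2), C (if i = n + 1 then 0 else vv n i) * (X i0 * X i2) ^ (i + 1) *
        (X i1 : MvPolynomial σ ℂ) ^ (n + 2 - 2 * (i + 1)) := by
    rw [← Finset.sum_sub_distrib]
    refine Finset.sum_congr rfl fun i hi => ?_
    have : (if i = n + 1 then 0 else vv n i) = vv n i := by
      split_ifs with h
      · rw [h]; unfold vv; rw [if_neg (by omega)]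
      · rfl
    rw [this, vv_rec n i hn, map_sub]; ring
  rw [hC]; ring

lemma WW_eval (x : σ → ℂ) (p q : ℂ) (h1 : p + q = x i1) (h2 : p * q = x i0 * x i2) :
    ∀ n : ℕ, 1 ≤ n → eval x (WW i0 i1 i2 n) = p ^ n + q ^ n := by
  intro n
  induction n using Nat.strong_induction_on with
  | _ n ih =>
    intro hn
    rcases Nat.lt_or_ge n 3 with h3 | h3
    · interval_cases n
      · rw [WW_one]; simp [h1]
      · rw [WW_two]; simp [← h1, ← h2]; ring
    · obtain ⟨k, rfl⟩ : ∃ k, n = k + 2 := ⟨n - 2, by omega⟩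
      rw [WW_rec _ _ _ k (by omega)]
      simp only [map_sub, map_mul, eval_X]
      rw [ih (k + 1) (by omega) (by omega), ih k (by omega) (by omega), ← h1, ← h2]
      ring

/-- The polygon product. -/
noncomputable def QQ (m : ℕ) (ζ : ℂ) : MvPolynomial σ ℂ :=
  ∏ j ∈ Finset.range m, (C (ζ ^ (2 * j)) * X i0 + C (-ζ ^ j) * X i1 + C 1 * X i2)

lemma QQ_eq (m : ℕ) (hm : 1 ≤ m) (ζ : ℂ) (hζ : IsPrimitiveRoot ζ m) :
    QQ i0 i1 i2 m ζ = X i0 ^ m + X i2 ^ m - WW i0 i1 i2 m := by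
  classical
  haveI : NeZero m := ⟨by omega⟩
  apply MvPolynomial.funext
  intro x
  -- roots
  obtain ⟨p, hp⟩ : ∃ p : ℂ, p * (x i1 - p) = x i0 * x i2 := by
    obtain ⟨s, hs⟩ := IsAlgClosed.exists_pow_nat_eq (x i1 ^ 2 - 4 * (x i0 * x i2))
      (show 0 < 2 by norm_num)
    refine ⟨(x i1 + s) / 2, ?_⟩
    have : (x i1 + s) / 2 * (x i1 - (x i1 + s) / 2) = (x i1 ^ 2 - s ^ 2) / 4 := by ring
    rw [this, hs]; ring
  set q := x i1 - p with hq
  have hpq : p + q = x i1 := by rw [hq]; ring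
  have hW := WW_eval i0 i1 i2 x p q hpq hp m hm
  have hprod : ∀ y z : ℂ, ∏ j ∈ Finset.range m, (y - ζ ^ j * z) = y ^ m - z ^ m := by
    intro y z
    rw [hζ.pow_sub_pow_eq_prod_sub_mul y z (by omega)]
    have himg : (Finset.range m).image (fun j => ζ ^ j) = Polynomial.nthRootsFinset m (1 : ℂ) := by
      apply Finset.eq_of_subset_of_card_le
      · intro w hw
        rw [Finset.mem_image] at hw
        obtain ⟨j, _, rfl⟩ := hw
        rw [Polynomial.mem_nthRootsFinset (by omega), ← pow_mul, mul_comm, pow_mul, hζ.pow_eq_one,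
          one_pow]
      · rw [hζ.card_nthRootsFinset, Finset.card_image_of_injOn, Finset.card_range]
        intro i hi j hj h
        exact hζ.pow_inj (by simpa using hi) (by simpa using hj) h
    rw [← himg, Finset.prod_image]
    intro i hi j hj h
    exact hζ.pow_inj (by simpa using hi) (by simpa using hj) h
  rw [map_sub, map_add, map_pow, map_pow, eval_X, eval_X, hW, QQ, map_prod]
  by_cases ha : x i0 = 0
  · have h3 : ∀ j ∈ Finset.range m, eval x (C (ζ ^ (2 * j)) * X i0 + C (-ζ ^ j) * X i1 +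
        C 1 * X i2 : MvPolynomial σ ℂ) = x i2 - ζ ^ j * x i1 := by
      intro j _
      simp [ha]; ring
    rw [Finset.prod_congr rfl h3, hprod, ha]
    have h4 : p * q = 0 := by rw [hp, ha, zero_mul]
    have hz : (0 : ℂ) ^ m = 0 := zero_pow (by omega)
    rcases mul_eq_zero.mp h4 with h5 | h5
    · rw [h5, hz, ← hpq, h5]; ring
    · rw [h5, hz, ← hpq, h5]; ring
  · have h3 : ∀ j ∈ Finset.range m, eval x (C (ζ ^ (2 * j)) * X i0 + C (-ζ ^ j) * X i1 +
        C 1 * X i2 : MvPolynomial σ ℂ) = (p - ζ ^ j * x i0) * (q - ζ ^ j * x i0) * (x i0)⁻¹ := by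
      intro j _
      rw [eq_mul_inv_iff_mul_eq₀ ha]
      simp
      have : x i2 * x i0 = p * q := by rw [hp]; ring
      rw [← hpq]
      linear_combination this
    rw [Finset.prod_congr rfl h3, Finset.prod_mul_distrib, Finset.prod_mul_distrib, hprod, hprod,
      Finset.prod_const, Finset.card_range, inv_pow, mul_inv_eq_iff_eq_mul₀ (pow_ne_zero _ ha)]
    have h6 : p ^ m * q ^ m = x i0 ^ m * x i2 ^ m := by rw [← mul_pow, ← mul_pow, hp]
    linear_combination h6

end

end Pool.Agent.Helper74.Apol
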