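import Pool.Agent.Helper74.Apol.Beta
import Pool.Agent.Helper74.Apol.Polygon

set_option autoImplicit false

/-!
# The special arrangement: polygon times powers
-/

open MvPolynomial

namespace Pool.Agent.Helper74.Apol

section
variable {σ : Type*} [Fintype σ] [DecidableEq σ] (i0 i1 i2 : σ)

/-- tail exponents -/
noncomputable def tl (k : ℕ) : σ →₀ ℕ :=
  Finsupp.equivFunOnFinite.symm (fun i => if i = i0 ∨ i = i1 ∨ i = i2 then 0 else k)

/-- head exponents -/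
noncomputable def e3 (p q r : ℕ) : σ →₀ ℕ :=
  Finsupp.single i0 p + Finsupp.single i1 q + Finsupp.single i2 r

noncomputable def FF (m k : ℕ) : MvPolynomial σ ℂ :=
  (X i0 ^ m + X i2 ^ m - WW i0 i1 i2 m) * monomial (tl i0 i1 i2 k) 1

lemma FF_symm (m k : ℕ) : FF i0 i1 i2 m k = FF i2 i1 i0 m k := by
  unfold FF
  have h1 : WW i0 i1 i2 m = WW i2 i1 i0 m := by
    unfold WW
    refine Finset.sum_congr rfl fun i _ => ?_
    rw [mul_comm (X i0) (X i2)]
  have h2 : tl i0 i1 i2 k = tl i2 i1 i0 k := by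
    unfold tl
    congr 1
    ext i
    have : (i = i0 ∨ i = i1 ∨ i = i2) ↔ (i = i2 ∨ i = i1 ∨ i = i0) := by tauto
    simp only [this]
  rw [h1, h2, add_comm (X i0 ^ m)]

lemma FF_eq (m k : ℕ) : FF i0 i1 i2 m k =
    monomial (e3 i0 i1 i2 m 0 0 + tl i0 i1 i2 k) 1 +
    monomial (e3 i0 i1 i2 0 0 m + tl i0 i1 i2 k) 1 -
    ∑ i ∈ Finset.range (m + 1), monomial (e3 i0 i1 i2 i (m - 2 * i) i + tl i0 i1 i2 k) (vv m i) := by
  have h1 : (X i0 ^ m : MvPolynomial σ ℂ) = monomial (e3 i0 i1 i2 m 0 0) 1 := by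
    rw [X_pow_eq_monomial]; congr 1; simp [e3]
  have h2 : (X i2 ^ m : MvPolynomial σ ℂ) = monomial (e3 i0 i1 i2 0 0 m) 1 := by
    rw [X_pow_eq_monomial]; congr 1; simp [e3]
  have h3 : ∀ i, (C (vv m i) * (X i0 * X i2) ^ i * X i1 ^ (m - 2 * i) : MvPolynomial σ ℂ) =
      monomial (e3 i0 i1 i2 i (m - 2 * i) i) (vv m i) := by
    intro i
    rw [mul_pow, X_pow_eq_monomial, X_pow_eq_monomial, X_pow_eq_monomial, C_mul', monomial_mul,
      smul_monomial, monomial_mul]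
    congr 1
    · simp only [e3]; abel
    · simp
  unfold FF WW
  rw [sub_mul, add_mul, h1, h2, monomial_mul, monomial_mul, Finset.sum_mul]
  simp only [mul_one]
  congr 1
  refine Finset.sum_congr rfl fun i _ => ?_
  rw [h3, monomial_mul, mul_one]

variable {i0 i1 i2}

lemma e3_0 (h01 : i0 ≠ i1) (h02 : i0 ≠ i2) (p q r k : ℕ) :
    (e3 i0 i1 i2 p q r + tl i0 i1 i2 k) i0 = p := by
  simp [e3, tl, h01.symm, h02.symm]

lemma e3_1 (h01 : i0 ≠ i1) (h12 : i1 ≠ i2) (p q r k : ℕ) :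
    (e3 i0 i1 i2 p q r + tl i0 i1 i2 k) i1 = q := by
  simp [e3, tl, h01, h12.symm]

lemma e3_2 (h02 : i0 ≠ i2) (h12 : i1 ≠ i2) (p q r k : ℕ) :
    (e3 i0 i1 i2 p q r + tl i0 i1 i2 k) i2 = r := by
  simp [e3, tl, h02, h12]

lemma e3_t {i : σ} (h0 : i ≠ i0) (h1 : i ≠ i1) (h2 : i ≠ i2) (p q r k : ℕ) :
    (e3 i0 i1 i2 p q r + tl i0 i1 i2 k) i = k := by
  simp [e3, tl, h0, h1, h2]

lemma coeff_FF_ne (h01 : i0 ≠ i1) (h02 : i0 ≠ i2) (h12 : i1 ≠ i2) (m k : ℕ) (α : σ →₀ ℕ)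
    (h : coeff α (FF i0 i1 i2 m k) ≠ 0) :
    (∀ i, i ≠ i0 → i ≠ i1 → i ≠ i2 → α i = k) ∧
    ((α i0 = α i2 ∧ α i1 + 2 * α i0 = m) ∨ (α i0 = m ∧ α i1 = 0 ∧ α i2 = 0) ∨
      (α i0 = 0 ∧ α i1 = 0 ∧ α i2 = m)) := by
  rw [FF_eq, coeff_sub, coeff_add, coeff_sum] at h
  simp only [coeff_monomial] at h
  by_cases hA : e3 i0 i1 i2 m 0 0 + tl i0 i1 i2 k = α
  · subst hA
    refine ⟨fun i a b c => e3_t a b c _ _ _ _, Or.inr (Or.inl ⟨?_, ?_, ?_⟩)⟩
    · exact e3_0 h01 h02 _ _ _ _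
    · exact e3_1 h01 h12 _ _ _ _
    · exact e3_2 h02 h12 _ _ _ _
  by_cases hB : e3 i0 i1 i2 0 0 m + tl i0 i1 i2 k = α
  · subst hB
    refine ⟨fun i a b c => e3_t a b c _ _ _ _, Or.inr (Or.inr ⟨?_, ?_, ?_⟩)⟩
    · exact e3_0 h01 h02 _ _ _ _
    · exact e3_1 h01 h12 _ _ _ _
    · exact e3_2 h02 h12 _ _ _ _
  rw [if_neg hA, if_neg hB] at h
  have h' : ∑ i ∈ Finset.range (m + 1),
      (if e3 i0 i1 i2 i (m - 2 * i) i + tl i0 i1 i2 k = α then vv m i else 0) ≠ 0 := by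
    intro h0; apply h; rw [h0]; ring
  obtain ⟨i, _, hi⟩ := Finset.exists_ne_zero_of_sum_ne_zero h'
  have hiα : e3 i0 i1 i2 i (m - 2 * i) i + tl i0 i1 i2 k = α := by
    by_contra hne; rw [if_neg hne] at hi; exact hi rfl
  rw [if_pos hiα] at hi
  have hle : 2 * i ≤ m := by
    by_contra hne; apply hi; unfold vv; rw [if_neg hne]
  subst hiα
  refine ⟨fun i a b c => e3_t a b c _ _ _ _, Or.inl ⟨?_, ?_⟩⟩
  · rw [e3_0 h01 h02, e3_2 h02 h12]
  · rw [e3_0 h01 h02, e3_1 h01 h12]; omega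

lemma coeff_FF_one (h01 : i0 ≠ i1) (h02 : i0 ≠ i2) (h12 : i1 ≠ i2) (m k i : ℕ) (hm : 1 ≤ m)
    (hi : 2 * i ≤ m) :
    coeff (e3 i0 i1 i2 i (m - 2 * i) i + tl i0 i1 i2 k) (FF i0 i1 i2 m k) = - vv m i := by
  have h12' : ∀ p q r p' q' r' : ℕ, e3 i0 i1 i2 p q r + tl i0 i1 i2 k =
      e3 i0 i1 i2 p' q' r' + tl i0 i1 i2 k → p = p' := by
    intro p q r p' q' r' h
    have := congrArg (fun f => f i0) h
    simpa only [e3_0 h01 h02] using this
  rw [FF_eq, coeff_sub, coeff_add, coeff_sum]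
  simp only [coeff_monomial]
  rw [Finset.sum_eq_single i]
  · rw [if_pos rfl]
    have hA : ¬ (e3 i0 i1 i2 m 0 0 + tl i0 i1 i2 k =
        e3 i0 i1 i2 i (m - 2 * i) i + tl i0 i1 i2 k) := by
      intro h
      have := h12' _ _ _ _ _ _ h
      omega
    rw [if_neg hA]
    have hB : ¬ (e3 i0 i1 i2 0 0 m + tl i0 i1 i2 k =
        e3 i0 i1 i2 i (m - 2 * i) i + tl i0 i1 i2 k) := by
      intro h
      have h0 := h12' _ _ _ _ _ _ h
      have h3 := congrArg (fun f => f i2) h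
      simp only [e3_2 h02 h12] at h3
      omega
    rw [if_neg hB]; ring
  · intro j _ hj
    rw [if_neg]
    intro h
    exact hj (h12' _ _ _ _ _ _ h)
  · intro h
    exact absurd (Finset.mem_range.mpr (by omega)) h

lemma coeff_FF_two (h01 : i0 ≠ i1) (h02 : i0 ≠ i2) (h12 : i1 ≠ i2) (m k : ℕ) (hm : 1 ≤ m) :
    coeff (e3 i0 i1 i2 0 0 m + tl i0 i1 i2 k) (FF i0 i1 i2 m k) = 1 := by
  rw [FF_eq, coeff_sub, coeff_add, coeff_sum]
  simp only [coeff_monomial]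
  rw [if_neg, if_pos trivial, Finset.sum_eq_zero]
  · ring
  · intro i _
    rw [if_neg]
    intro h
    have h1 := congrArg (fun f => f i0) h
    have h2 := congrArg (fun f => f i2) h
    simp only [e3_0 h01 h02] at h1
    simp only [e3_2 h02 h12] at h2
    omega
  · intro h
    have h1 := congrArg (fun f => f i0) h
    simp only [e3_0 h01 h02] at h1
    omega

variable (i0 i1 i2)

/-- the exponent vector with given head and tail -/
noncomputable def ct (p q r : ℕ) (t : σ → ℕ) : σ →₀ ℕ :=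
  Finsupp.equivFunOnFinite.symm (fun i => if i = i0 then p else if i = i1 then q else
    if i = i2 then r else t i)

lemma ct_apply (p q r : ℕ) (t : σ → ℕ) (i : σ) : ct i0 i1 i2 p q r t i =
    if i = i0 then p else if i = i1 then q else if i = i2 then r else t i := rfl

lemma ct_add (p q r p' q' r' : ℕ) (t t' : σ → ℕ) :
    ct i0 i1 i2 p q r t + ct i0 i1 i2 p' q' r' t' =
      ct i0 i1 i2 (p + p') (q + q') (r + r') (fun i => t i + t' i) := by
  ext i
  rw [Finsupp.add_apply, ct_apply, ct_apply, ct_apply]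
  split_ifs <;> rfl

variable {i0 i1 i2}

lemma e3_tl_eq (h01 : i0 ≠ i1) (h02 : i0 ≠ i2) (h12 : i1 ≠ i2) (p q r k : ℕ) :
    e3 i0 i1 i2 p q r + tl i0 i1 i2 k = ct i0 i1 i2 p q r (fun _ => k) := by
  ext i
  rw [ct_apply]
  split_ifs with h0 h1 h2
  · rw [h0, e3_0 h01 h02]
  · rw [h1, e3_1 h01 h12]
  · rw [h2, e3_2 h02 h12]
  · exact e3_t h0 h1 h2 _ _ _ _

lemma eq_ct (a : σ →₀ ℕ) : a = ct i0 i1 i2 (a i0) (a i1) (a i2) a := by
  ext i
  rw [ct_apply]
  split_ifs with h0 h1 h2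
  · rw [h0]
  · rw [h1]
  · rw [h2]
  · rfl

/-- product of the factorials of the exponents -/
noncomputable def fc (a : σ →₀ ℕ) : ℂ := ∏ i, ((a i).factorial : ℂ)

variable (i0 i1 i2) in
/-- the constant factor -/
noncomputable def KK (k : ℕ) : ℂ :=
  ∏ i : σ, if i = i0 then (1 : ℂ) else if i = i1 then 1 else if i = i2 then 1 else (k.factorial : ℂ)

lemma KK_ne (k : ℕ) : KK i0 i1 i2 k ≠ 0 := by
  unfold KK
  rw [Finset.prod_ne_zero_iff]
  intro i _
  split_ifs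
  · exact one_ne_zero
  · exact one_ne_zero
  · exact one_ne_zero
  · exact_mod_cast Nat.factorial_ne_zero k

lemma fc_ct (h01 : i0 ≠ i1) (h02 : i0 ≠ i2) (h12 : i1 ≠ i2) (p q r k : ℕ) :
    fc (ct i0 i1 i2 p q r (fun _ => k)) =
      (p.factorial : ℂ) * (q.factorial : ℂ) * (r.factorial : ℂ) * KK i0 i1 i2 k := by
  have h : ∀ i : σ, ((ct i0 i1 i2 p q r (fun _ => k) i).factorial : ℂ) =
      (if i = i0 then (p.factorial : ℂ) else 1) * (if i = i1 then (q.factorial : ℂ) else 1) *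
      (if i = i2 then (r.factorial : ℂ) else 1) *
      (if i = i0 then (1 : ℂ) else if i = i1 then 1 else if i = i2 then 1 else
        (k.factorial : ℂ)) := by
    intro i
    rw [ct_apply]
    by_cases h0 : i = i0
    · subst h0; simp [h01, h02]
    · by_cases h1 : i = i1
      · subst h1; simp [h0, h12]
      · by_cases h2 : i = i2
        · subst h2; simp [h0, h1]
        · simp [h0, h1, h2]
  unfold fc KK
  rw [Finset.prod_congr rfl (fun i _ => h i), Finset.prod_mul_distrib, Finset.prod_mul_distrib,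
    Finset.prod_mul_distrib, Finset.prod_ite_eq' Finset.univ i0, Finset.prod_ite_eq' Finset.univ i1,
    Finset.prod_ite_eq' Finset.univ i2]
  simp

/-- coefficient times the factorials -/
noncomputable def hh (F : MvPolynomial σ ℂ) (a : σ →₀ ℕ) : ℂ := coeff a F * fc a

lemma hh_one (h01 : i0 ≠ i1) (h02 : i0 ≠ i2) (h12 : i1 ≠ i2) (m k i : ℕ) (hm : 1 ≤ m)
    (hi : 2 * i ≤ m) :
    hh (FF i0 i1 i2 m k) (ct i0 i1 i2 i (m - 2 * i) i (fun _ => k)) =
      - ((-1) ^ i * ((i.factorial : ℂ) * ((m - 1 - i).factorial : ℂ))) *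
        ((m : ℂ) * KK i0 i1 i2 k) := by
  unfold hh
  rw [fc_ct h01 h02 h12, ← e3_tl_eq h01 h02 h12, coeff_FF_one h01 h02 h12 m k i hm hi]
  unfold vv
  rw [if_pos hi]
  have f1 : (i.factorial : ℂ) ≠ 0 := by exact_mod_cast Nat.factorial_ne_zero i
  have f2 : ((m - 2 * i).factorial : ℂ) ≠ 0 := by exact_mod_cast Nat.factorial_ne_zero _
  have e1 : m - i - 1 = m - 1 - i := by omega
  rw [e1]
  field_simp

lemma hh_two (h01 : i0 ≠ i1) (h02 : i0 ≠ i2) (h12 : i1 ≠ i2) (m k : ℕ) (hm : 1 ≤ m) :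
    hh (FF i0 i1 i2 m k) (ct i0 i1 i2 0 0 m (fun _ => k)) =
      (m.factorial : ℂ) * KK i0 i1 i2 k := by
  unfold hh
  rw [fc_ct h01 h02 h12, ← e3_tl_eq h01 h02 h12, coeff_FF_two h01 h02 h12 m k hm]
  simp

variable (i0 i1 i2) in
/-- the tail sum -/
def ts (a : σ → ℕ) : ℕ := ∑ i : σ, if i = i0 then 0 else if i = i1 then 0 else
  if i = i2 then 0 else a i

lemma deg_eq (h01 : i0 ≠ i1) (h02 : i0 ≠ i2) (h12 : i1 ≠ i2) (a : σ →₀ ℕ) :
    a.degree = a i0 + a i1 + a i2 + ts i0 i1 i2 a := by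
  have h : ∀ i : σ, a i = (if i = i0 then a i0 else 0) + (if i = i1 then a i1 else 0) +
      (if i = i2 then a i2 else 0) +
      (if i = i0 then 0 else if i = i1 then 0 else if i = i2 then 0 else a i) := by
    intro i
    by_cases h0 : i = i0
    · subst h0; simp [h01, h02]
    · by_cases h1 : i = i1
      · subst h1; simp [h0, h12]
      · by_cases h2 : i = i2
        · subst h2; simp [h0, h1]
        · simp [h0, h1, h2]
  rw [Finsupp.degree_eq_sum, Finset.sum_congr rfl (fun i _ => h i), Finset.sum_add_distrib,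
    Finset.sum_add_distrib, Finset.sum_add_distrib]
  unfold ts
  simp

lemma sum_eq_of_zero {α : Type*} [DecidableEq α] (S B : Finset α) (f : α → ℂ)
    (h1 : ∀ a ∈ B, a ∉ S → f a = 0) (h2 : ∀ a ∈ S, a ∉ B → f a = 0) :
    ∑ a ∈ S, f a = ∑ a ∈ B, f a := by
  rw [Finset.sum_subset (Finset.subset_union_left (s₁ := S) (s₂ := B)),
    Finset.sum_subset (Finset.subset_union_right (s₁ := S) (s₂ := B))]
  · intro a ha hb
    rcases Finset.mem_union.mp ha with h | h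
    · exact h2 a h hb
    · exact absurd h hb
  · intro a ha hb
    rcases Finset.mem_union.mp ha with h | h
    · exact absurd h hb
    · exact h1 a h hb

end

end Pool.Agent.Helper74.Apol
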