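import Pool.Agent.Helper74.Apol.Block

set_option autoImplicit false

/-!
# No form of degree `k` kills the special arrangement
-/

open MvPolynomial

namespace Pool.Agent.Helper74.Apol

section
variable {σ : Type*} [Fintype σ] [DecidableEq σ] {i0 i1 i2 : σ}

lemma ct_0 (p q r : ℕ) (t : σ → ℕ) : ct i0 i1 i2 p q r t i0 = p := by
  rw [ct_apply, if_pos rfl]

lemma ct_1 (h01 : i0 ≠ i1) (p q r : ℕ) (t : σ → ℕ) : ct i0 i1 i2 p q r t i1 = q := by
  rw [ct_apply, if_neg h01.symm, if_pos rfl]

lemma ct_2 (h02 : i0 ≠ i2) (h12 : i1 ≠ i2) (p q r : ℕ) (t : σ → ℕ) :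
    ct i0 i1 i2 p q r t i2 = r := by
  rw [ct_apply, if_neg h02.symm, if_neg h12.symm, if_pos rfl]

lemma ct_t (p q r : ℕ) (t : σ → ℕ) {i : σ} (n0 : i ≠ i0) (n1 : i ≠ i1) (n2 : i ≠ i2) :
    ct i0 i1 i2 p q r t i = t i := by
  rw [ct_apply, if_neg n0, if_neg n1, if_neg n2]

lemma ct_ext (h01 : i0 ≠ i1) (h02 : i0 ≠ i2) (h12 : i1 ≠ i2) (p q r : ℕ) (t : σ → ℕ)
    (a : σ →₀ ℕ) (h0 : a i0 = p) (h1 : a i1 = q) (h2 : a i2 = r)
    (ht : ∀ i, i ≠ i0 → i ≠ i1 → i ≠ i2 → a i = t i) : ct i0 i1 i2 p q r t = a := by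
  ext i
  by_cases n0 : i = i0
  · rw [n0, ct_0, h0]
  by_cases n1 : i = i1
  · rw [n1, ct_1 h01, h1]
  by_cases n2 : i = i2
  · rw [n2, ct_2 h02 h12, h2]
  rw [ct_t _ _ _ _ n0 n1 n2, ht i n0 n1 n2]

/-- The general case. -/
lemma block_gen (h01 : i0 ≠ i1) (h02 : i0 ≠ i2) (h12 : i1 ≠ i2) (m k : ℕ) (hk : 1 ≤ k)
    (hm : 2 * k ≤ m) (g : (σ →₀ ℕ) → ℂ) (S : Finset (σ →₀ ℕ))
    (hS : ∀ a ∈ S, a.degree = k) (hgS : ∀ a, a ∉ S → g a = 0)
    (hker : ∀ c, ∑ a ∈ S, g a * hh (FF i0 i1 i2 m k) (a + c) = 0)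
    (a0 : σ →₀ ℕ) (ha0 : a0 ∈ S) (hw : a0 i2 ≤ a0 i0)
    (hne : m = 2 * k → a0 i0 < k + a0 i2) : g a0 = 0 := by
  classical
  have hdeg0 := hS a0 ha0
  rw [deg_eq h01 h02 h12] at hdeg0
  set k' := a0 i0 + a0 i1 + a0 i2 with hk'
  set w := a0 i0 - a0 i2 with hwdef
  have hk'k : k' ≤ k := by omega
  set R := (k' - w) / 2 with hR
  have hR2 : w + 2 * R ≤ k' := by omega
  set A : ℕ → (σ →₀ ℕ) := fun r => ct i0 i1 i2 (w + r) (k' - w - 2 * r) r a0 with hA
  set cc : ℕ → (σ →₀ ℕ) := fun j => ct i0 i1 i2 j (m - k' - w - 2 * j) (w + j)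
    (fun i => k - a0 i) with hcc
  have htail : ∀ i, a0 i ≤ k := by
    intro i
    rw [← hS a0 ha0, Finsupp.degree_eq_sum]
    exact Finset.single_le_sum (f := fun i => a0 i) (fun _ _ => Nat.zero_le _)
      (Finset.mem_univ i)
  have hsum : ∀ r ≤ R, ∀ j ≤ R, A r + cc j =
      ct i0 i1 i2 (w + r + j) (m - 2 * (w + r + j)) (w + r + j) (fun _ => k) := by
    intro r hr j hj
    simp only [hA, hcc]
    rw [ct_add]
    congr 1
    · omega
    · omega
    · funext i
      have := htail i
      omega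
  have hAinj : ∀ r s, A r = A s → r = s := by
    intro r s h
    have h1 := congrArg (fun f => f i2) h
    simp only [hA, ct_2 h02 h12] at h1
    exact h1
  -- only the `A r` contribute
  have honly : ∀ j ≤ R, ∀ a ∈ S, a ∉ (Finset.range (R + 1)).image A →
      g a * hh (FF i0 i1 i2 m k) (a + cc j) = 0 := by
    intro j hj a haS haA
    by_contra hne0
    have hcoef : coeff (a + cc j) (FF i0 i1 i2 m k) ≠ 0 := by
      intro h0
      apply hne0
      rw [hh, h0]; ring
    obtain ⟨ht, htype⟩ := coeff_FF_ne h01 h02 h12 m k _ hcoef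
    have hc0 : (a + cc j) i0 = a i0 + j := by
      simp only [hcc, Finsupp.add_apply, ct_0]
    have hc1 : (a + cc j) i1 = a i1 + (m - k' - w - 2 * j) := by
      simp only [hcc, Finsupp.add_apply, ct_1 h01]
    have hc2 : (a + cc j) i2 = a i2 + (w + j) := by
      simp only [hcc, Finsupp.add_apply, ct_2 h02 h12]
    have hta : ∀ i, i ≠ i0 → i ≠ i1 → i ≠ i2 → a i = a0 i := by
      intro i n0 n1 n2
      have h1 := ht i n0 n1 n2
      simp only [hcc, Finsupp.add_apply, ct_t _ _ _ _ n0 n1 n2] at h1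
      have := htail i
      omega
    have hts : ts i0 i1 i2 a = ts i0 i1 i2 a0 := by
      unfold ts
      refine Finset.sum_congr rfl fun i _ => ?_
      split_ifs with n0 n1 n2
      · rfl
      · rfl
      · rfl
      · exact hta i n0 n1 n2
    have hdega := hS a haS
    rw [deg_eq h01 h02 h12, hts] at hdega
    have hka : a i0 + a i1 + a i2 = k' := by omega
    rw [hc0, hc1, hc2] at htype
    rcases htype with ⟨t1, t2⟩ | ⟨t1, t2, t3⟩ | ⟨t1, t2, t3⟩
    · apply haA
      rw [Finset.mem_image]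
      refine ⟨a i2, Finset.mem_range.mpr (by omega), ?_⟩
      exact ct_ext h01 h02 h12 _ _ _ _ a (by omega) (by omega) rfl hta
    · omega
    · have := hne (by omega)
      omega
  have hval : ∀ j ≤ R, ∑ r ∈ Finset.range (R + 1), g (A r) *
      hh (FF i0 i1 i2 m k) (A r + cc j) = 0 := by
    intro j hj
    rw [← hker (cc j), sum_eq_of_zero S ((Finset.range (R + 1)).image A)
      (fun a => g a * hh (FF i0 i1 i2 m k) (a + cc j)) ?_ (honly j hj),
      Finset.sum_image (fun r _ s _ h => hAinj r s h)]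
    intro a _ haS
    simp only [hgS a haS, zero_mul]
  have hbeta := beta_inj w R (m - 1) (by omega) (fun r => (-1) ^ r * g (A r)) (by
    intro j hj
    have h1 := hval j hj
    have h2 : ∀ r ∈ Finset.range (R + 1), g (A r) * hh (FF i0 i1 i2 m k) (A r + cc j) =
        ((-1) ^ r * g (A r) * (((w + r + j).factorial : ℂ) *
          ((m - 1 - (w + r + j)).factorial : ℂ))) *
          (-(-1) ^ (w + j) * ((m : ℂ) * KK i0 i1 i2 k)) := by
      intro r hr
      have hr' : r ≤ R := by have := Finset.mem_range.mp hr; omega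
      rw [hsum r hr' j hj, hh_one h01 h02 h12 m k _ (by omega) (by omega)]
      rw [show w + r + j = r + (w + j) by ring, pow_add]
      ring
    rw [Finset.sum_congr rfl h2, ← Finset.sum_mul] at h1
    rcases mul_eq_zero.mp h1 with h3 | h3
    · exact h3
    · exfalso
      revert h3
      refine mul_ne_zero (neg_ne_zero.mpr (pow_ne_zero _ (by norm_num)))
        (mul_ne_zero ?_ (KK_ne k))
      exact_mod_cast (by omega : m ≠ 0))
  have hr0 : a0 i2 ≤ R := by omega
  have h3 := hbeta (a0 i2) hr0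
  have h4 : A (a0 i2) = a0 :=
    ct_ext h01 h02 h12 _ _ _ _ a0 (by omega) (by omega) rfl (fun _ _ _ _ => rfl)
  rw [h4] at h3
  rcases mul_eq_zero.mp h3 with h5 | h5
  · exact absurd h5 (pow_ne_zero _ (by norm_num))
  · exact h5

lemma deg_single (i : σ) (k : ℕ) : (Finsupp.single i k).degree = k := by
  simp

/-- The exceptional equation. -/
lemma block_exc_eq (h01 : i0 ≠ i1) (h02 : i0 ≠ i2) (h12 : i1 ≠ i2) (k : ℕ) (hk : 1 ≤ k)
    (g : (σ →₀ ℕ) → ℂ) (S : Finset (σ →₀ ℕ))
    (hS : ∀ a ∈ S, a.degree = k) (hgS : ∀ a, a ∉ S → g a = 0)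
    (hker : ∀ c, ∑ a ∈ S, g a * hh (FF i0 i1 i2 (2 * k) k) (a + c) = 0) :
    ((2 * k).factorial : ℂ) * g (Finsupp.single i2 k) =
      (-1) ^ k * 2 * (k.factorial : ℂ) ^ 2 * g (Finsupp.single i0 k) := by
  classical
  have hc := hker (ct i0 i1 i2 0 0 k (fun _ => k))
  have hne : (Finsupp.single i0 k : σ →₀ ℕ) ≠ Finsupp.single i2 k := by
    intro h
    have h1 := congrArg (fun f => f i0) h
    simp [Finsupp.single_apply, h02.symm] at h1
    omega
  have e1 : Finsupp.single i0 k + ct i0 i1 i2 0 0 k (fun _ => k) =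
      ct i0 i1 i2 k (2 * k - 2 * k) k (fun _ => k) := by
    symm
    apply ct_ext h01 h02 h12
    · simp [ct_0]
    · simp [ct_1 h01, Finsupp.single_apply, h01]
    · simp [ct_2 h02 h12, Finsupp.single_apply, h02]
    · intro i n0 n1 n2
      simp [ct_t _ _ _ _ n0 n1 n2, Finsupp.single_apply, Ne.symm n0]
  have e2 : Finsupp.single i2 k + ct i0 i1 i2 0 0 k (fun _ => k) =
      ct i0 i1 i2 0 0 (2 * k) (fun _ => k) := by
    symm
    apply ct_ext h01 h02 h12
    · simp [ct_0, Finsupp.single_apply, h02.symm]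
    · simp [ct_1 h01, Finsupp.single_apply, h12.symm]
    · simp [ct_2 h02 h12]; ring
    · intro i n0 n1 n2
      simp [ct_t _ _ _ _ n0 n1 n2, Finsupp.single_apply, Ne.symm n2]
  rw [sum_eq_of_zero S {Finsupp.single i0 k, Finsupp.single i2 k}
    (fun a => g a * hh (FF i0 i1 i2 (2 * k) k) (a + ct i0 i1 i2 0 0 k (fun _ => k)))
    (fun a _ haS => by simp only [hgS a haS, zero_mul]) ?_, Finset.sum_pair hne, e1, e2,
    hh_one h01 h02 h12 (2 * k) k k (by omega) (by omega), hh_two h01 h02 h12 (2 * k) k (by omega)]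
    at hc
  · have hK : KK i0 i1 i2 k ≠ 0 := KK_ne k
    have hf : ((2 * k : ℕ) : ℂ) * ((2 * k - 1 - k).factorial : ℂ) = 2 * (k.factorial : ℂ) := by
      obtain ⟨j, rfl⟩ : ∃ j, k = j + 1 := ⟨k - 1, by omega⟩
      have h1 : 2 * (j + 1) - 1 - (j + 1) = j := by omega
      rw [h1, Nat.factorial_succ]
      push_cast
      ring
    have h2 : (((2 * k).factorial : ℂ) * g (Finsupp.single i2 k) -
        (-1) ^ k * 2 * (k.factorial : ℂ) ^ 2 * g (Finsupp.single i0 k)) *
        KK i0 i1 i2 k = 0 := by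
      rw [← hc]
      linear_combination (g (Finsupp.single i0 k)) * (-1) ^ k * (k.factorial : ℂ) *
        KK i0 i1 i2 k * hf
    rcases mul_eq_zero.mp h2 with h3 | h3
    · linear_combination h3
    · exact absurd h3 hK
  · intro a haS haA
    by_contra hne0
    have hcoef : coeff (a + ct i0 i1 i2 0 0 k (fun _ => k)) (FF i0 i1 i2 (2 * k) k) ≠ 0 := by
      intro h0
      apply hne0
      rw [hh, h0]; ring
    obtain ⟨ht, htype⟩ := coeff_FF_ne h01 h02 h12 _ k _ hcoef
    have hc0 : (a + ct i0 i1 i2 0 0 k (fun _ => k)) i0 = a i0 := by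
      simp only [Finsupp.add_apply, ct_0]; ring
    have hc1 : (a + ct i0 i1 i2 0 0 k (fun _ => k)) i1 = a i1 := by
      simp only [Finsupp.add_apply, ct_1 h01]; ring
    have hc2 : (a + ct i0 i1 i2 0 0 k (fun _ => k)) i2 = a i2 + k := by
      simp only [Finsupp.add_apply, ct_2 h02 h12]
    have hta : ∀ i, i ≠ i0 → i ≠ i1 → i ≠ i2 → a i = 0 := by
      intro i n0 n1 n2
      have h1 := ht i n0 n1 n2
      simp only [Finsupp.add_apply, ct_t _ _ _ _ n0 n1 n2] at h1
      omega
    have hts : ts i0 i1 i2 a = 0 := by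
      unfold ts
      refine Finset.sum_eq_zero fun i _ => ?_
      split_ifs with n0 n1 n2
      · rfl
      · rfl
      · rfl
      · exact hta i n0 n1 n2
    have hdega := hS a haS
    rw [deg_eq h01 h02 h12, hts] at hdega
    rw [hc0, hc1, hc2] at htype
    apply haA
    rw [Finset.mem_insert, Finset.mem_singleton]
    rcases htype with ⟨t1, t2⟩ | ⟨t1, t2, t3⟩ | ⟨t1, t2, t3⟩
    · left
      ext i
      by_cases n0 : i = i0
      · rw [n0, Finsupp.single_eq_same]; omega
      by_cases n1 : i = i1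
      · rw [n1, Finsupp.single_eq_of_ne h01.symm]; omega
      by_cases n2 : i = i2
      · rw [n2, Finsupp.single_eq_of_ne h02.symm]; omega
      rw [Finsupp.single_eq_of_ne n0]
      exact hta i n0 n1 n2
    · omega
    · right
      ext i
      by_cases n0 : i = i0
      · rw [n0, Finsupp.single_eq_of_ne h02]; omega
      by_cases n1 : i = i1
      · rw [n1, Finsupp.single_eq_of_ne h12]; omega
      by_cases n2 : i = i2
      · rw [n2, Finsupp.single_eq_same]; omega
      rw [Finsupp.single_eq_of_ne n2]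
      exact hta i n0 n1 n2

lemma two_fact_lt (k : ℕ) (hk : 2 ≤ k) : 2 * k.factorial ^ 2 < (2 * k).factorial := by
  obtain ⟨n, rfl⟩ : ∃ n, k = n + 1 := ⟨k - 1, by omega⟩
  have h1 := Nat.succ_mul_centralBinom_succ n
  have h2 := Nat.two_dvd_centralBinom_of_one_le (n := n) (by omega)
  have h3 := Nat.centralBinom_pos n
  have h4 : 2 ≤ n.centralBinom := Nat.le_of_dvd h3 h2
  have h5 : 2 < (n + 1).centralBinom := by
    by_contra hc
    push Not at hc
    have : (n + 1) * (n + 1).centralBinom ≤ (n + 1) * 2 := Nat.mul_le_mul_left _ hc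
    have h6 : 2 * (2 * n + 1) * 2 ≤ 2 * (2 * n + 1) * n.centralBinom := Nat.mul_le_mul_left _ h4
    rw [h1] at this
    omega
  have h7 := Nat.choose_mul_factorial_mul_factorial (n := 2 * (n + 1)) (k := n + 1) (by omega)
  have h8 : 2 * (n + 1) - (n + 1) = n + 1 := by omega
  rw [h8] at h7
  rw [← h7]
  have h9 : (2 * (n + 1)).choose (n + 1) = (n + 1).centralBinom := rfl
  rw [h9]
  have h10 : 0 < (n + 1).factorial := Nat.factorial_pos _
  nlinarith [Nat.mul_pos h10 h10]

/-- No nonzero form of degree `k` kills the special arrangement. -/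
theorem block (h01 : i0 ≠ i1) (h02 : i0 ≠ i2) (h12 : i1 ≠ i2) (m k : ℕ) (hk : 1 ≤ k)
    (hm : 2 * k ≤ m) (hk2 : m = 2 * k → 2 ≤ k) (g : (σ →₀ ℕ) → ℂ) (S : Finset (σ →₀ ℕ))
    (hS : ∀ a ∈ S, a.degree = k) (hgS : ∀ a, a ∉ S → g a = 0)
    (hker : ∀ c, ∑ a ∈ S, g a * hh (FF i0 i1 i2 m k) (a + c) = 0) (a0 : σ →₀ ℕ) :
    g a0 = 0 := by
  classical
  by_cases ha0 : a0 ∈ S
  swap
  · exact hgS a0 ha0
  have hsym : ∀ c, ∑ a ∈ S, g a * hh (FF i2 i1 i0 m k) (a + c) = 0 := by
    intro c
    rw [← FF_symm]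
    exact hker c
  have hdeg0 := hS a0 ha0
  rw [deg_eq h01 h02 h12] at hdeg0
  by_cases hm2 : m = 2 * k
  · subst hm2
    by_cases hlt1 : a0 i0 < k + a0 i2
    · by_cases hlt2 : a0 i2 < k + a0 i0
      · rcases le_total (a0 i2) (a0 i0) with hw | hw
        · exact block_gen h01 h02 h12 _ k hk hm g S hS hgS hker a0 ha0 hw (fun _ => hlt1)
        · exact block_gen h12.symm h02.symm h01.symm _ k hk hm g S hS hgS hsym a0 ha0 hw
            (fun _ => hlt2)
      · -- `a0 = single i2 k`
        have he : a0 = Finsupp.single i2 k := by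
          have hts : ts i0 i1 i2 a0 = 0 := by omega
          unfold ts at hts
          rw [Finset.sum_eq_zero_iff] at hts
          ext i
          by_cases n0 : i = i0
          · rw [n0, Finsupp.single_eq_of_ne h02]; omega
          by_cases n1 : i = i1
          · rw [n1, Finsupp.single_eq_of_ne h12]; omega
          by_cases n2 : i = i2
          · rw [n2, Finsupp.single_eq_same]; omega
          rw [Finsupp.single_eq_of_ne n2]
          have := hts i (Finset.mem_univ i)
          rw [if_neg n0, if_neg n1, if_neg n2] at this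
          exact this
        have q1 := block_exc_eq h01 h02 h12 k hk g S hS hgS hker
        have q2 := block_exc_eq h12.symm h02.symm h01.symm k hk g S hS hgS hsym
        rw [he]
        have h3 := two_fact_lt k (hk2 rfl)
        have h4 : ((2 * k.factorial ^ 2 : ℕ) : ℂ) ^ 2 ≠ (((2 * k).factorial : ℕ) : ℂ) ^ 2 := by
          norm_cast
          intro h
          have : 2 * k.factorial ^ 2 = (2 * k).factorial :=
            Nat.pow_left_injective (n := 2) (by norm_num) h
          omega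
        have h5 : (((-1 : ℂ)) ^ k) * ((-1) ^ k) = 1 := by
          rw [← mul_pow]; norm_num
        have h6 : ((((2 * k).factorial : ℕ) : ℂ) ^ 2 - ((2 * k.factorial ^ 2 : ℕ) : ℂ) ^ 2) *
            g (Finsupp.single i2 k) = 0 := by
          push_cast
          linear_combination ((2 * k).factorial : ℂ) * q1 +
            (-1) ^ k * 2 * (k.factorial : ℂ) ^ 2 * q2 +
            4 * (k.factorial : ℂ) ^ 4 * g (Finsupp.single i2 k) * h5
        rcases mul_eq_zero.mp h6 with h7 | h7
        · exact absurd (sub_eq_zero.mp h7).symm h4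
        · exact h7
    · have he : a0 = Finsupp.single i0 k := by
        have hts : ts i0 i1 i2 a0 = 0 := by omega
        unfold ts at hts
        rw [Finset.sum_eq_zero_iff] at hts
        ext i
        by_cases n0 : i = i0
        · rw [n0, Finsupp.single_eq_same]; omega
        by_cases n1 : i = i1
        · rw [n1, Finsupp.single_eq_of_ne h01.symm]; omega
        by_cases n2 : i = i2
        · rw [n2, Finsupp.single_eq_of_ne h02.symm]; omega
        rw [Finsupp.single_eq_of_ne n0]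
        have := hts i (Finset.mem_univ i)
        rw [if_neg n0, if_neg n1, if_neg n2] at this
        exact this
      have q1 := block_exc_eq h01 h02 h12 k hk g S hS hgS hker
      have q2 := block_exc_eq h12.symm h02.symm h01.symm k hk g S hS hgS hsym
      rw [he]
      have h3 := two_fact_lt k (hk2 rfl)
      have h4 : ((2 * k.factorial ^ 2 : ℕ) : ℂ) ^ 2 ≠ (((2 * k).factorial : ℕ) : ℂ) ^ 2 := by
        norm_cast
        intro h
        have : 2 * k.factorial ^ 2 = (2 * k).factorial :=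
          Nat.pow_left_injective (n := 2) (by norm_num) h
        omega
      have h5 : (((-1 : ℂ)) ^ k) * ((-1) ^ k) = 1 := by
        rw [← mul_pow]; norm_num
      have h6 : ((((2 * k).factorial : ℕ) : ℂ) ^ 2 - ((2 * k.factorial ^ 2 : ℕ) : ℂ) ^ 2) *
          g (Finsupp.single i0 k) = 0 := by
        push_cast
        linear_combination ((2 * k).factorial : ℂ) * q2 +
          (-1) ^ k * 2 * (k.factorial : ℂ) ^ 2 * q1 +
          4 * (k.factorial : ℂ) ^ 4 * g (Finsupp.single i0 k) * h5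
      rcases mul_eq_zero.mp h6 with h7 | h7
      · exact absurd (sub_eq_zero.mp h7).symm h4
      · exact h7
  · rcases le_total (a0 i2) (a0 i0) with hw | hw
    · exact block_gen h01 h02 h12 _ k hk hm g S hS hgS hker a0 ha0 hw
        (fun h => absurd h hm2)
    · exact block_gen h12.symm h02.symm h01.symm _ k hk hm g S hS hgS hsym a0 ha0 hw
        (fun h => absurd h hm2)

end

end Pool.Agent.Helper74.Apol
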