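import Pool.Agent.Helper74.Apol.Koszul

set_option autoImplicit false

/-!
# Homogeneous ideals with `N` generators in `N` variables
-/

open MvPolynomial

namespace Pool.Agent.Helper74.Apol

section
variable {N : ℕ}

lemma comp_mul {m : ℕ} {z : MvPolynomial (Fin N) ℂ} (hz : z.IsHomogeneous m)
    (p : MvPolynomial (Fin N) ℂ) (e : ℕ) :
    homogeneousComponent e (p * z) = if m ≤ e then homogeneousComponent (e - m) p * z else 0 := by
  have hdec : p * z = ∑ j ∈ Finset.range (p.totalDegree + 1), homogeneousComponent j p * z := by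
    rw [← Finset.sum_mul, sum_homogeneousComponent]
  have h1 : ∀ j, homogeneousComponent e (homogeneousComponent j p * z) =
      if e = j + m then homogeneousComponent j p * z else 0 := by
    intro j
    exact homogeneousComponent_of_mem ((homogeneousComponent_isHomogeneous j p).mul hz)
  rw [hdec, map_sum, Finset.sum_congr rfl fun j _ => h1 j]
  split_ifs with hme
  · by_cases hlt : e - m ∈ Finset.range (p.totalDegree + 1)
    · rw [Finset.sum_eq_single_of_mem _ hlt, if_pos (by omega)]
      intro j _ hj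
      rw [if_neg (by omega)]
    · rw [Finset.sum_eq_zero]
      · rw [homogeneousComponent_eq_zero, zero_mul]
        rw [Finset.mem_range] at hlt
        omega
      · intro j hj
        rw [if_neg]
        rintro rfl
        apply hlt
        have : j + m - m = j := by omega
        rw [this]
        exact hj
  · refine Finset.sum_eq_zero fun j _ => ?_
    rw [if_neg (by omega)]

/-- A homogeneous ideal with `N` generators is spanned by at most `N` homogeneous elements. -/
lemma exists_homog (I : Ideal (MvPolynomial (Fin N) ℂ))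
    (hI : ∀ p ∈ I, ∀ j, homogeneousComponent j p ∈ I) (g : Fin N → MvPolynomial (Fin N) ℂ)
    (hg : I = Ideal.span (Set.range g)) :
    ∃ S : Finset (MvPolynomial (Fin N) ℂ), (∀ x ∈ S, ∃ e, x.IsHomogeneous e) ∧
      Ideal.span (S : Set (MvPolynomial (Fin N) ℂ)) = I ∧ S.card ≤ N := by
  classical
  have hex : ∃ n, ∃ S : Finset (MvPolynomial (Fin N) ℂ), ((∀ x ∈ S, ∃ e, x.IsHomogeneous e) ∧
      Ideal.span (S : Set (MvPolynomial (Fin N) ℂ)) = I) ∧ S.card = n := by
    refine ⟨_, Finset.univ.biUnion fun i : Fin N => (Finset.range ((g i).totalDegree + 1)).image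
      fun j => homogeneousComponent j (g i), ⟨?_, ?_⟩, rfl⟩
    · intro x hx
      simp only [Finset.mem_biUnion, Finset.mem_image] at hx
      obtain ⟨i, _, j, _, rfl⟩ := hx
      exact ⟨j, homogeneousComponent_isHomogeneous j _⟩
    · apply le_antisymm
      · rw [Ideal.span_le]
        intro x hx
        simp only [Finset.coe_biUnion, Finset.mem_coe, Finset.mem_univ, Set.iUnion_true,
          Set.mem_iUnion, Finset.coe_image, Set.mem_image] at hx
        obtain ⟨i, j, _, rfl⟩ := hx
        apply hI
        rw [hg]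
        exact Ideal.subset_span ⟨i, rfl⟩
      · conv_lhs => rw [hg]
        rw [Ideal.span_le]
        rintro _ ⟨i, rfl⟩
        rw [SetLike.mem_coe, ← sum_homogeneousComponent (g i)]
        refine Ideal.sum_mem _ fun j hj => Ideal.subset_span ?_
        simp only [Finset.coe_biUnion, Finset.mem_coe, Finset.mem_univ, Set.iUnion_true,
          Set.mem_iUnion, Finset.coe_image, Set.mem_image]
        exact ⟨i, j, hj, rfl⟩
  obtain ⟨S, ⟨hS1, hS2⟩, hSn⟩ := Nat.find_spec hex
  have hmin : ∀ S' : Finset (MvPolynomial (Fin N) ℂ), (∀ x ∈ S', ∃ e, x.IsHomogeneous e) →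
      Ideal.span (S' : Set (MvPolynomial (Fin N) ℂ)) = I → S.card ≤ S'.card := by
    intro S' h1 h2
    rw [hSn]
    exact Nat.find_min' hex ⟨S', ⟨h1, h2⟩, rfl⟩
  refine ⟨S, hS1, hS2, ?_⟩
  by_contra hcard
  push Not at hcard
  -- `x = ∑ A x i g i`
  have hA : ∀ x : S, ∃ c : Fin N → MvPolynomial (Fin N) ℂ, ∑ i, c i * g i = x := by
    intro x
    have : (x : MvPolynomial (Fin N) ℂ) ∈ Ideal.span (Set.range g) := by
      rw [← hg, ← hS2]
      exact Ideal.subset_span x.2
    rwa [Ideal.mem_span_range_iff_exists_fun] at this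
  have hB : ∀ i, ∃ c : S → MvPolynomial (Fin N) ℂ, ∑ y, c y * (y : MvPolynomial (Fin N) ℂ) =
      g i := by
    intro i
    have h1 : g i ∈ Ideal.span (Set.range fun y : S => (y : MvPolynomial (Fin N) ℂ)) := by
      have h2 : Set.range (fun y : S => (y : MvPolynomial (Fin N) ℂ)) =
          (S : Set (MvPolynomial (Fin N) ℂ)) := Subtype.range_coe
      rw [h2, hS2, hg]
      exact Ideal.subset_span ⟨i, rfl⟩
    rwa [Ideal.mem_span_range_iff_exists_fun] at h1
  choose A hA using hA
  choose B hB using hB
  set A0 : Matrix S (Fin N) ℂ := fun x i => constantCoeff (A x i) with hA0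
  set B0 : Matrix (Fin N) S ℂ := fun i y => constantCoeff (B i y) with hB0
  have hne : A0 * B0 ≠ 1 := by
    intro h1
    have hinj : Function.Injective (Matrix.mulVecLin B0) := by
      rw [← LinearMap.ker_eq_bot, LinearMap.ker_eq_bot']
      intro v hv
      have h2 : A0.mulVec (B0.mulVec v) = v := by
        rw [Matrix.mulVec_mulVec, h1, Matrix.one_mulVec]
      rw [← h2]
      rw [Matrix.mulVecLin_apply] at hv
      rw [hv, Matrix.mulVec_zero]
    have h3 := LinearMap.finrank_le_finrank_of_injective hinj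
    rw [Module.finrank_fintype_fun_eq_card, Module.finrank_fintype_fun_eq_card, Fintype.card_coe,
      Fintype.card_fin] at h3
    omega
  obtain ⟨x, y, hxy⟩ : ∃ x y : S, (A0 * B0) x y ≠ (1 : Matrix S S ℂ) x y := by
    by_contra hcon
    push Not at hcon
    exact hne (Matrix.ext hcon)
  set c : S → MvPolynomial (Fin N) ℂ := fun z => (if x = z then 1 else 0) -
    ∑ i, A x i * B i z with hc
  have hrel : ∑ z : S, c z * (z : MvPolynomial (Fin N) ℂ) = 0 := by
    simp only [hc, sub_mul, Finset.sum_sub_distrib]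
    have h1 : ∑ z : S, (if x = z then (1 : MvPolynomial (Fin N) ℂ) else 0) *
        (z : MvPolynomial (Fin N) ℂ) = x := by
      rw [Finset.sum_eq_single x]
      · rw [if_pos rfl, one_mul]
      · intro b _ hb
        rw [if_neg (Ne.symm hb), zero_mul]
      · intro h; exact absurd (Finset.mem_univ _) h
    have h2 : ∑ z : S, (∑ i, A x i * B i z) * (z : MvPolynomial (Fin N) ℂ) = x := by
      rw [← hA x]
      simp only [Finset.sum_mul]
      rw [Finset.sum_comm]
      refine Finset.sum_congr rfl fun i _ => ?_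
      rw [← hB i, Finset.mul_sum]
      refine Finset.sum_congr rfl fun z _ => ?_
      ring
    rw [h1, h2, sub_self]
  have hcy : constantCoeff (c y) ≠ 0 := by
    intro h0
    apply hxy
    rw [hc] at h0
    simp only [map_sub, map_sum, map_mul] at h0
    rw [sub_eq_zero] at h0
    rw [Matrix.mul_apply, Matrix.one_apply]
    rw [hA0, hB0]
    rw [← h0]
    split_ifs <;> simp
  obtain ⟨e, he⟩ := hS1 y y.2
  have h3 := congrArg (homogeneousComponent e) hrel
  rw [map_sum, map_zero, ← Finset.add_sum_erase Finset.univ _ (Finset.mem_univ y)] at h3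
  have h4 : homogeneousComponent e (c y * (y : MvPolynomial (Fin N) ℂ)) =
      C (constantCoeff (c y)) * (y : MvPolynomial (Fin N) ℂ) := by
    rw [comp_mul he, if_pos le_rfl, Nat.sub_self, homogeneousComponent_zero]
    rfl
  rw [h4] at h3
  have h5 : ∑ z ∈ Finset.univ.erase y, homogeneousComponent e (c z *
      (z : MvPolynomial (Fin N) ℂ)) ∈ Ideal.span ((S.erase y : Finset _) :
        Set (MvPolynomial (Fin N) ℂ)) := by
    refine Ideal.sum_mem _ fun z hz => ?_
    obtain ⟨ez, hez⟩ := hS1 z z.2
    rw [comp_mul hez]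
    split_ifs
    · refine Ideal.mul_mem_left _ _ (Ideal.subset_span ?_)
      rw [Finset.mem_coe, Finset.mem_erase]
      refine ⟨fun hc => ?_, z.2⟩
      rw [Finset.mem_erase] at hz
      exact hz.1 (Subtype.ext hc)
    · exact Ideal.zero_mem _
  have h6 : (y : MvPolynomial (Fin N) ℂ) ∈ Ideal.span ((S.erase y : Finset _) :
      Set (MvPolynomial (Fin N) ℂ)) := by
    have h7 : C (constantCoeff (c y)) * (y : MvPolynomial (Fin N) ℂ) ∈
        Ideal.span ((S.erase y : Finset _) : Set (MvPolynomial (Fin N) ℂ)) := by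
      rw [eq_neg_of_add_eq_zero_left h3]
      exact neg_mem h5
    have h8 := Ideal.mul_mem_left _ (C (constantCoeff (c y))⁻¹) h7
    rwa [← mul_assoc, ← C_mul, inv_mul_cancel₀ hcy, C_1, one_mul] at h8
  have h9 : Ideal.span ((S.erase y : Finset _) : Set (MvPolynomial (Fin N) ℂ)) = I := by
    rw [← hS2]
    apply le_antisymm
    · exact Ideal.span_mono (by
        intro z hz
        rw [Finset.mem_coe] at hz ⊢
        exact Finset.mem_of_mem_erase hz)
    · rw [Ideal.span_le]
      intro z hz
      by_cases hzy : z = y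
      · rw [hzy]; exact h6
      · exact Ideal.subset_span (by
          rw [Finset.mem_coe, Finset.mem_erase]
          exact ⟨hzy, hz⟩)
  have h10 := hmin _ (fun z hz => hS1 z (Finset.mem_of_mem_erase hz)) h9
  rw [Finset.card_erase_of_mem y.2] at h10
  have h11 : 0 < S.card := Finset.card_pos.mpr ⟨y, y.2⟩
  omega

theorem not_ci (I : Ideal (MvPolynomial (Fin N) ℂ)) (k d : ℕ)
    (hI : ∀ p ∈ I, ∀ j, homogeneousComponent j p ∈ I)
    (hlow : ∀ p ∈ I, ∀ j ≤ k, p.IsHomogeneous j → p = 0)
    (hhigh : ∀ p : MvPolynomial (Fin N) ℂ, ∀ j, d < j → p.IsHomogeneous j → p ∈ I)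
    (hkd : d < N * k) (g : Fin N → MvPolynomial (Fin N) ℂ) : I ≠ Ideal.span (Set.range g) := by
  classical
  intro hg
  obtain ⟨S, hS1, hS2, hSc⟩ := exists_homog I hI g hg
  set G : Fin N → MvPolynomial (Fin N) ℂ := fun i =>
    if h : (i : ℕ) < S.card then (S.equivFin.symm ⟨i, h⟩ : S).1 else 0 with hGdef
  have hGhom : ∀ i, ∃ e, k + 1 ≤ e ∧ (G i).IsHomogeneous e := by
    intro i
    by_cases h0 : G i = 0
    · rw [h0]
      exact ⟨k + 1, le_rfl, isHomogeneous_zero _ _ _⟩
    · have hi : (i : ℕ) < S.card := by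
        by_contra hc
        apply h0
        simp only [hGdef, dif_neg hc]
      have hmem : G i ∈ S := by
        simp only [hGdef, dif_pos hi]
        exact (S.equivFin.symm ⟨i, hi⟩ : S).2
      obtain ⟨e, he⟩ := hS1 _ hmem
      refine ⟨e, ?_, he⟩
      by_contra hc
      apply h0
      apply hlow (G i) _ e (by omega) he
      rw [← hS2]
      exact Ideal.subset_span hmem
  choose e he hGe using hGhom
  have hspan : Ideal.span (Set.range G) = I := by
    rw [← hS2]
    apply le_antisymm
    · rw [Ideal.span_le]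
      rintro _ ⟨i, rfl⟩
      by_cases hi : (i : ℕ) < S.card
      · apply Ideal.subset_span
        simp only [hGdef, dif_pos hi]
        exact (S.equivFin.symm ⟨i, hi⟩ : S).2
      · simp only [hGdef, dif_neg hi]
        exact Ideal.zero_mem _
    · apply Ideal.span_mono
      intro x hx
      have hx' : x ∈ S := hx
      refine ⟨⟨(S.equivFin ⟨x, hx'⟩ : ℕ), lt_of_lt_of_le (S.equivFin ⟨x, hx'⟩).2 hSc⟩, ?_⟩
      simp only [hGdef]
      rw [dif_pos (S.equivFin ⟨x, hx'⟩).2]
      simp
  refine koszul G e (fun i => by have := he i; omega) hGe ?_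
  intro p hp
  rw [hspan]
  refine hhigh p _ ?_ hp
  calc d < N * k := hkd
    _ = ∑ _i : Fin N, k := by rw [Finset.sum_const, Finset.card_univ, Fintype.card_fin, smul_eq_mul]
    _ ≤ ∑ i, (e i - 1) := Finset.sum_le_sum fun i _ => by have := he i; omega

end

end Pool.Agent.Helper74.Apol
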