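import Pool.Agent.Helper74.Apol.Ann
import Pool.Agent.Helper74.Apol.Ci

set_option autoImplicit false

/-!
# General arrangements
-/

open MvPolynomial

namespace Pool.Agent.Helper74.Apol

/-- The product of the linear forms. -/
noncomputable def arr {d N : ℕ} (L : Fin d → Fin N → ℂ) : MvPolynomial (Fin N) ℂ :=
  ∏ j : Fin d, ∑ i : Fin N, C (L j i) * X i

lemma arr_homog {d N : ℕ} (L : Fin d → Fin N → ℂ) : (arr L).IsHomogeneous d := by
  have h1 : (arr L).IsHomogeneous (∑ _j : Fin d, 1) := by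
    refine IsHomogeneous.prod _ _ _ fun j _ => ?_
    refine IsHomogeneous.sum _ _ _ fun i _ => ?_
    have := (isHomogeneous_C (Fin N) (L j i)).mul (isHomogeneous_X ℂ i)
    simpa using this
  simpa using h1

section open_
variable {d N : ℕ}

/-- The generic product. -/
noncomputable def arrP (d N : ℕ) : MvPolynomial (Fin N) (MvPolynomial (Fin d × Fin N) ℂ) :=
  ∏ j : Fin d, ∑ i : Fin N, C (X (j, i)) * X i

lemma eval_arrP (L : Fin d → Fin N → ℂ) (a : Fin N →₀ ℕ) :
    eval (fun x : Fin d × Fin N => L x.1 x.2) (coeff a (arrP d N)) = coeff a (arr L) := by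
  have h1 : map (eval (fun x : Fin d × Fin N => L x.1 x.2)) (arrP d N) = arr L := by
    unfold arrP arr
    rw [map_prod]
    refine Finset.prod_congr rfl fun j _ => ?_
    rw [map_sum]
    refine Finset.sum_congr rfl fun i _ => ?_
    rw [map_mul, map_C, map_X, eval_X]
  rw [← h1, coeff_map]

/-- index sets -/
abbrev Ex (N k : ℕ) : Type :=
  ((Finset.univ : Finset (Fin N)).finsuppAntidiag k : Finset (Fin N →₀ ℕ))

lemma mem_ex {k : ℕ} (a : Fin N →₀ ℕ) :
    a ∈ (Finset.univ : Finset (Fin N)).finsuppAntidiag k ↔ a.degree = k := by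
  rw [Finset.mem_finsuppAntidiag, Finsupp.degree_eq_sum]
  simp

/-- The catalecticant matrix. -/
noncomputable def cat (k : ℕ) (L : Fin d → Fin N → ℂ) : Matrix (Ex N (d - k)) (Ex N k) ℂ :=
  fun c a => hh (arr L) (a.1 + c.1)

noncomputable def catP (d N k : ℕ) :
    Matrix (Ex N (d - k)) (Ex N k) (MvPolynomial (Fin d × Fin N) ℂ) :=
  fun c a => coeff (a.1 + c.1) (arrP d N) * C (fc (a.1 + c.1))

lemma eval_catP (k : ℕ) (L : Fin d → Fin N → ℂ) :
    (catP d N k).map (eval (fun x : Fin d × Fin N => L x.1 x.2)) = cat k L := by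
  ext c a
  rw [Matrix.map_apply]
  unfold catP cat
  rw [map_mul, eval_arrP, eval_C]
  rfl

lemma ker_of_ann (k : ℕ) (L : Fin d → Fin N → ℂ) {p : MvPolynomial (Fin N) ℂ}
    (hp : p ∈ annI (arr L)) (hk : p.IsHomogeneous k) :
    (cat k L).mulVec (fun a => coeff a.1 p) = 0 := by
  funext c
  rw [Matrix.mulVec, dotProduct, Pi.zero_apply]
  have hsub : p.support ⊆ (Finset.univ : Finset (Fin N)).finsuppAntidiag k := by
    intro a ha
    rw [mem_ex]
    have := hk (mem_support_iff.mp ha)
    rw [Finsupp.degree_eq_weight_one]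
    exact this
  have h1 := Lam_mul_monomial (arr L) p c.1 _ hsub
  rw [hp] at h1
  rw [← Finset.sum_coe_sort] at h1
  rw [h1]
  refine Finset.sum_congr rfl fun a _ => ?_
  unfold cat
  ring

lemma cat_inj (k : ℕ) (hkd : k ≤ d) (L : Fin d → Fin N → ℂ)
    (h : ∀ p ∈ annI (arr L), p.IsHomogeneous k → p = 0) (v : Ex N k → ℂ)
    (hv : (cat k L).mulVec v = 0) : v = 0 := by
  set p : MvPolynomial (Fin N) ℂ := ∑ a : Ex N k, monomial a.1 (v a) with hp
  have hcoeff : ∀ a : Ex N k, coeff a.1 p = v a := by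
    intro a
    rw [hp, coeff_sum, Finset.sum_eq_single a]
    · rw [coeff_monomial, if_pos rfl]
    · intro b _ hb
      rw [coeff_monomial, if_neg]
      intro hc
      exact hb (Subtype.ext hc)
    · intro hc
      exact absurd (Finset.mem_univ _) hc
  have hhom : p.IsHomogeneous k := by
    refine IsHomogeneous.sum _ _ _ fun a _ => ?_
    exact isHomogeneous_monomial _ ((mem_ex a.1).mp a.2)
  have hsub : p.support ⊆ (Finset.univ : Finset (Fin N)).finsuppAntidiag k := by
    intro a ha
    rw [mem_ex]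
    have := hhom (mem_support_iff.mp ha)
    rw [Finsupp.degree_eq_weight_one]
    exact this
  have hann : p ∈ annI (arr L) := by
    rw [mem_annI_iff]
    intro c
    rw [← Lam_mul_monomial (arr L) p c _ (Finset.Subset.refl _),
      Lam_mul_monomial (arr L) p c _ hsub]
    by_cases hc : c.degree = d - k
    · have h1 := congrFun hv ⟨c, (mem_ex c).mpr hc⟩
      rw [Matrix.mulVec, dotProduct, Pi.zero_apply] at h1
      rw [← h1, ← Finset.sum_coe_sort]
      refine Finset.sum_congr rfl fun a _ => ?_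
      rw [hcoeff a]
      unfold cat
      ring
    · refine Finset.sum_eq_zero fun a ha => ?_
      rw [mem_ex] at ha
      rw [hh_zero (arr_homog L), mul_zero]
      rw [map_add]
      omega
  have h0 := h p hann hhom
  funext a
  rw [← hcoeff a, h0, coeff_zero, Pi.zero_apply]

/-- The constant matrix. -/
noncomputable def catC (d N k : ℕ) (L0 : Fin d → Fin N → ℂ) :
    Matrix (Ex N k) (Ex N (d - k)) (MvPolynomial (Fin d × Fin N) ℂ) :=
  fun a c => C (star (cat k L0 c a))

lemma eval_catC (k : ℕ) (L0 : Fin d → Fin N → ℂ) (x : Fin d × Fin N → ℂ) :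
    (catC d N k L0).map (eval x) = (cat k L0).conjTranspose := by
  ext a c
  rw [Matrix.map_apply, Matrix.conjTranspose_apply]
  unfold catC
  rw [eval_C]

open scoped ComplexOrder in
theorem generic (k : ℕ) (hkd : k ≤ d) (L0 : Fin d → Fin N → ℂ)
    (h0 : ∀ p ∈ annI (arr L0), p.IsHomogeneous k → p = 0) :
    ∃ Δ : MvPolynomial (Fin d × Fin N) ℂ, Δ ≠ 0 ∧ ∀ L : Fin d → Fin N → ℂ,
      eval (fun x : Fin d × Fin N => L x.1 x.2) Δ ≠ 0 →
      ∀ p ∈ annI (arr L), p.IsHomogeneous k → p = 0 := by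
  classical
  set Δ : MvPolynomial (Fin d × Fin N) ℂ := (catC d N k L0 * catP d N k).det with hΔ
  have heval : ∀ L : Fin d → Fin N → ℂ, eval (fun x : Fin d × Fin N => L x.1 x.2) Δ =
      ((cat k L0).conjTranspose * cat k L).det := by
    intro L
    rw [hΔ, RingHom.map_det, RingHom.mapMatrix_apply, Matrix.map_mul, eval_catP, eval_catC]
  refine ⟨Δ, ?_, ?_⟩
  · intro hc
    have h1 := heval L0
    rw [hc, map_zero] at h1
    obtain ⟨v, hv0, hv⟩ := Matrix.exists_mulVec_eq_zero_iff.mpr h1.symm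
    rw [Matrix.conjTranspose_mul_self_mulVec_eq_zero] at hv
    exact hv0 (cat_inj k hkd L0 h0 v hv)
  · intro L hL p hp hk
    have h2 := ker_of_ann k L hp hk
    have h3 : (fun a : Ex N k => coeff a.1 p) = 0 := by
      by_contra hne
      apply hL
      rw [heval L]
      apply Matrix.exists_mulVec_eq_zero_iff.mp
      refine ⟨_, hne, ?_⟩
      rw [← Matrix.mulVec_mulVec, h2, Matrix.mulVec_zero]
    ext a
    rw [coeff_zero]
    by_contra hne
    have h4 : a.degree = k := by
      have := hk hne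
      rw [Finsupp.degree_eq_weight_one]
      exact this
    exact hne (congrFun h3 ⟨a, (mem_ex a).mpr h4⟩)

end open_

end Pool.Agent.Helper74.Apol
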