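import Pool.Agent.Helper74.Apol.Gen

set_option autoImplicit false

/-!
# The special arrangement and the final theorem
-/

open MvPolynomial

namespace Pool.Agent.Helper74.Apol

section
variable {N : ℕ}

lemma sum_three {i0 i1 i2 : Fin N} (h01 : i0 ≠ i1) (h02 : i0 ≠ i2) (h12 : i1 ≠ i2) (a b c : ℂ) :
    (∑ i : Fin N, C (if i = i0 then a else if i = i1 then b else if i = i2 then c else 0) * X i :
      MvPolynomial (Fin N) ℂ) = C a * X i0 + C b * X i1 + C c * X i2 := by
  classical
  have h : ∀ i : Fin N, (C (if i = i0 then a else if i = i1 then b else if i = i2 then c else 0) *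
      X i : MvPolynomial (Fin N) ℂ) = (if i = i0 then C a * X i0 else 0) +
      (if i = i1 then C b * X i1 else 0) + (if i = i2 then C c * X i2 else 0) := by
    intro i
    by_cases h0 : i = i0
    · subst h0; simp [h01, h02]
    · by_cases h1 : i = i1
      · subst h1; simp [h0, h12]
      · by_cases h2 : i = i2
        · subst h2; simp [h0, h1]
        · simp [h0, h1, h2]
  rw [Finset.sum_congr rfl fun i _ => h i, Finset.sum_add_distrib, Finset.sum_add_distrib]
  simp

lemma monomial_tl (i0 i1 i2 : Fin N) (k : ℕ) :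
    (monomial (tl i0 i1 i2 k) 1 : MvPolynomial (Fin N) ℂ) =
      ∏ i ∈ (Finset.univ \ {i0, i1, i2} : Finset (Fin N)), X i ^ k := by
  classical
  rw [monomial_eq, C_1, one_mul, Finsupp.prod_fintype]
  · rw [← Finset.prod_subset (Finset.subset_univ (Finset.univ \ {i0, i1, i2} : Finset (Fin N)))]
    · refine Finset.prod_congr rfl fun i hi => ?_
      have h1 : ¬ (i = i0 ∨ i = i1 ∨ i = i2) := by
        simpa using hi
      unfold tl
      rw [Finsupp.equivFunOnFinite_symm_apply_apply, if_neg h1]
    · intro i _ hi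
      have h1 : i = i0 ∨ i = i1 ∨ i = i2 := by
        by_contra hc
        apply hi
        simpa using hc
      unfold tl
      rw [Finsupp.equivFunOnFinite_symm_apply_apply, if_pos h1, pow_zero]
  · intro i
    rw [pow_zero]

theorem exists_special {d N : ℕ} (m k : ℕ) (hm : 1 ≤ m) (hd : d = m + (N - 3) * k)
    (i0 i1 i2 : Fin N) (h01 : i0 ≠ i1) (h02 : i0 ≠ i2) (h12 : i1 ≠ i2) :
    ∃ L0 : Fin d → Fin N → ℂ, arr L0 = FF i0 i1 i2 m k := by
  classical
  set tset : Finset (Fin N) := Finset.univ \ {i0, i1, i2} with htset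
  have hcard : tset.card = N - 3 := by
    rw [htset, Finset.card_sdiff_of_subset (Finset.subset_univ _), Finset.card_univ,
      Fintype.card_fin]
    congr 1
    rw [Finset.card_insert_of_notMem, Finset.card_pair h12]
    simp [h01, h02]
  have hζ := Complex.isPrimitiveRoot_exp m (by omega)
  set ζ := Complex.exp (2 * Real.pi * Complex.I / m) with hζdef
  let J : Type := Fin m ⊕ (tset × Fin k)
  have hJ : Fintype.card (Fin d) = Fintype.card J := by
    simp only [J, Fintype.card_sum, Fintype.card_fin, Fintype.card_prod, Fintype.card_coe]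
    rw [hcard, hd]
  let e : Fin d ≃ J := Fintype.equivOfCardEq hJ
  let f : J → Fin N → ℂ := fun x => match x with
    | Sum.inl j => fun i => if i = i0 then ζ ^ (2 * (j : ℕ)) else if i = i1 then -ζ ^ (j : ℕ) else
        if i = i2 then 1 else 0
    | Sum.inr s => fun i => if i = s.1.1 then 1 else 0
  refine ⟨fun j => f (e j), ?_⟩
  unfold arr
  rw [Equiv.prod_comp e (fun x : J => ∑ i : Fin N, C (f x i) * X i)]
  simp only [J]
  rw [Fintype.prod_sum_type]
  unfold FF
  congr 1
  · rw [← QQ_eq i0 i1 i2 m hm ζ hζ, QQ, Finset.prod_range]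
    refine Finset.prod_congr rfl fun j _ => ?_
    rw [← sum_three h01 h02 h12]
  · rw [monomial_tl, ← htset, Fintype.prod_prod_type]
    have h1 : ∀ (i : tset) (s : Fin k), (∑ i' : Fin N, C (f (Sum.inr (i, s)) i') * X i' :
        MvPolynomial (Fin N) ℂ) = X i.1 := by
      intro i s
      rw [Finset.sum_eq_single i.1]
      · simp [f]
      · intro b _ hb
        simp [f, hb]
      · intro h; exact absurd (Finset.mem_univ _) h
    rw [Finset.prod_congr rfl fun i _ => Finset.prod_congr rfl fun s _ => h1 i s]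
    simp only [Finset.prod_const, Finset.card_univ, Fintype.card_fin]
    exact Finset.prod_coe_sort tset (fun i => (X i ^ k : MvPolynomial (Fin N) ℂ))

/-- No form of degree `k = ⌊d/(N-1)⌋` kills the product of `d ≥ N` general linear forms. -/
theorem generic_init {d N : ℕ} (hN : 3 ≤ N) (hd : N ≤ d) :
    ∃ Δ : MvPolynomial (Fin d × Fin N) ℂ, Δ ≠ 0 ∧ ∀ L : Fin d → Fin N → ℂ,
      eval (fun x : Fin d × Fin N => L x.1 x.2) Δ ≠ 0 →
      ∀ p ∈ annI (arr L), p.IsHomogeneous (d / (N - 1)) → p = 0 := by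
  classical
  set k := d / (N - 1) with hk
  have h1 : (N - 1) * k ≤ d := Nat.mul_div_le d (N - 1)
  have h2 : d < (N - 1) * (k + 1) := by
    have := Nat.lt_mul_div_succ d (b := N - 1) (by omega)
    exact this
  have hk1 : 1 ≤ k := by
    rw [hk, Nat.one_le_div_iff (by omega)]
    omega
  obtain ⟨n, rfl⟩ : ∃ n, N = n + 3 := ⟨N - 3, by omega⟩
  have e1 : n + 3 - 1 = n + 2 := by omega
  rw [e1] at h1 h2
  have h3 : n * k ≤ d := by nlinarith
  set m := d - n * k with hm
  have hm2 : 2 * k ≤ m := by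
    have : (n + 2) * k = n * k + 2 * k := by ring
    omega
  have hk2 : m = 2 * k → 2 ≤ k := by
    intro h
    by_contra hc
    have hk0 : k = 1 := by omega
    rw [hk0] at h hm
    omega
  obtain ⟨L0, hL0⟩ := exists_special (d := d) (N := n + 3) m k (by omega)
    (by rw [hm]; simp; omega) ⟨0, by omega⟩ ⟨1, by omega⟩ ⟨2, by omega⟩
    (by simp) (by simp) (by simp)
  refine generic k ?_ L0 ?_
  · rw [hk]; exact Nat.div_le_self _ _
  · intro p hp hpk
    rw [hL0, mem_annI_iff] at hp
    ext a
    rw [coeff_zero]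
    refine block (i0 := (⟨0, by omega⟩ : Fin (n + 3))) (i1 := ⟨1, by omega⟩) (i2 := ⟨2, by omega⟩)
      (by simp) (by simp) (by simp) m k hk1 hm2 hk2 (fun a => coeff a p) p.support ?_ ?_ hp a
    · intro a ha
      rw [Finsupp.degree_eq_weight_one]
      exact hpk (mem_support_iff.mp ha)
    · intro a ha
      exact notMem_support_iff.mp ha

theorem main {d N : ℕ} (hN : 3 ≤ N) (hd : N ≤ d) :
    ∃ Δ : MvPolynomial (Fin d × Fin N) ℂ, Δ ≠ 0 ∧ ∀ L : Fin d → Fin N → ℂ,
      eval (fun x : Fin d × Fin N => L x.1 x.2) Δ ≠ 0 →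
      (∀ p ∈ annI (arr L), p ≠ 0 → d < (N - 1) * p.totalDegree) ∧
      ((N - 1) ^ 2 ≤ d → ∀ g : Fin N → MvPolynomial (Fin N) ℂ,
        annI (arr L) ≠ Ideal.span (Set.range g)) := by
  obtain ⟨Δ, hΔ, h⟩ := generic_init hN hd
  refine ⟨Δ, hΔ, fun L hL => ?_⟩
  have hk := h L hL
  have h2 : d < (N - 1) * (d / (N - 1) + 1) := by
    have := Nat.lt_mul_div_succ d (b := N - 1) (by omega)
    exact this
  have hlow : ∀ p ∈ annI (arr L), ∀ j ≤ d / (N - 1), p.IsHomogeneous j → p = 0 :=
    fun p hp j hj hpj => annI_small (by omega) hk hp hpj hj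
  constructor
  · intro p hp hp0
    by_contra hc
    push Not at hc
    apply hp0
    have hdeg : p.totalDegree ≤ d / (N - 1) := by
      rw [Nat.le_div_iff_mul_le (by omega)]
      rw [mul_comm]
      exact hc
    rw [← sum_homogeneousComponent p]
    refine Finset.sum_eq_zero fun j hj => ?_
    rw [Finset.mem_range] at hj
    exact hlow _ (annI_component (arr_homog L) hp j) j (by omega)
      (homogeneousComponent_isHomogeneous j p)
  · intro hd2 g
    refine not_ci (annI (arr L)) (d / (N - 1)) d (fun p hp j => annI_component (arr_homog L) hp j)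
      hlow (fun p j hj hp => annI_large (arr_homog L) hp hj) ?_ g
    have hk1 : N - 1 ≤ d / (N - 1) := by
      rw [Nat.le_div_iff_mul_le (by omega)]
      nlinarith
    obtain ⟨n, rfl⟩ : ∃ n, N = n + 1 := ⟨N - 1, by omega⟩
    have e1 : n + 1 - 1 = n := by omega
    rw [e1] at h2 hk1 ⊢
    nlinarith

end

end Pool.Agent.Helper74.Apol
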